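import Pool.Agent.H17G.PNG
import Pool.Agent.H17EF.Bridge
import Pool.Agent.H62.EL.Defs

/-!
# G ChG: the local coordinates and the forms, from the projective space to the cone

* `isNC_of`: let `x ∈ coneE P`, and `σ, τ, c, i, j` as in `IsNCPoint` for the point of `x`.  `σ 0 = b • (LE N).symm x` with `b ≠ 0`; put `σ' p = (LE N) (b⁻¹ • σ p)`, so `σ' 0 = x`, `σ' p ∈ coneE P`, `uE Λ u (σ' p) - (c + s^i t^j) ∈ Λ` for `p = (s, t)` near `0`
  (compare the proof of `H17EF.fibHyp` in `H17EF/Bridge.lean`, where the same is done for nodes; there also `τ' y = τ (b • (LE N).symm y)` with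
  `∀ᶠ y in 𝓝 x, y ∈ coneE P → ∃ a ≠ 0, y = a • σ' (τ' y)`).  Only the property `IsGermChart.inv` is missing, so `τ'` is changed: let `χ` be a chart (`Pool.Agent.H14.PP.Chart`) with `x ∈ χ.U`, `χ.q x = 0` (`H17EF.charts hS`),
  and `h p = χ.q (σ' p)`, analytic at `0`, `h 0 = 0`; `k p = τ' (s p)`, `s p = a₀ • χ.σ p` with `a₀ • χ.σ 0 = x` (`χ.surj`: `x = a₀ • χ.σ (χ.q x) = a₀ • χ.σ 0`), `k 0 = τ' x = 0`.  For `p` near `0`: `s p ∈ coneE P` is near `x`, so `s p = a • σ' (k p)`, so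
  `p = χ.q (χ.σ p) = χ.q (s p) = χ.q (σ' (k p)) = h (k p)` (`χ.q_smul`; `σ' (k p) ∈ χ.U`).  So `h ∘ k = id` near `0`, the derivatives `h'(0)`, `k'(0)` (in dimension 2) are inverse to each other, `h` is a local homeomorphism with analytic inverse, and the inverse is
  `k` near `0` (`HasStrictFDerivAt` inverse function theorem, or: `k` is injective near `0` and open, so `k ∘ h = id` near `0`).  Put `τ'' y = k (χ.q y)`: it is analytic at `x`, `τ'' (σ' p) = k (h p) = p`; for `y ∈ coneE P` near `x`, `y = a • χ.σ (χ.q y)` and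
  `χ.q y = h (k (χ.q y)) = χ.q (σ' (τ'' y))`, so `σ' (τ'' y) = a' • χ.σ (χ.q y)`, so `y` is a multiple of `σ' (τ'' y)`; `inv`: `χ.q (c • y) = χ.q y` for `y ∈ χ.U`, `c ≠ 0`.

* `tform`: transport by `LE N`: `toFun z x v w = Ω z ((LE N).symm x) ((LE N).symm v) ((LE N).symm w)`; `Over (projVar P) Λ u z ((LE N).symm x) ↔ x ∈ coneE P ∧ uE Λ u x - z ∈ Λ` (`mem_coneE`, `uE_eq`, `sub_mem_iff`); tangent vectors: compare
  `H36.BP.tan_transport` and `formT` (`H36/BP/Nodal.lean`).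
-/

set_option autoImplicit false

open Topology Filter Metric MvPolynomial

noncomputable section

namespace Pool.Agent.H17G

open Pool.Agent.H17 (PN VanishesAt HolomorphicInto)
open Pool.Agent.H62.FC (Homog)
open Pool.Agent.H62.EF (MN pr Lat TorusMap Sec DU Charts)
open Pool.Agent.H62.EL (IsNC TForm Per VanZero Thin tc EData BadSet Gd)
open Pool.Agent.H17BP (Surface)
open Pool.Agent.H13.SM (cone)
open Pool.Agent.H36.BP (EN IsGermChart)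
open Pool.Agent.H14.PP (IsCone Chart Tan)
open Pool.Agent.H17EF (projVar IsHolomorphicMap coneE uE LE mem_coneE sub_mem_iff uE_eq mk_mem_projVar)

variable {N : ℕ} {P : Ideal (MvPolynomial (Fin (N + 1)) ℂ)} {Λ Γ : AddSubgroup ℂ} {u : PN N → ℂ ⧸ Λ}

theorem over_iff (hP : Homog P) {z : ℂ} {x : EN N} : Over (projVar P) Λ u z ((LE N).symm x) ↔ x ∈ coneE P ∧ uE Λ u x - z ∈ Λ := by
  constructor
  · rintro ⟨h, h1, h2⟩
    exact ⟨(mem_coneE hP).2 ⟨h, h1⟩, by rw [sub_mem_iff, uE_eq Λ u h]; exact h2⟩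
  · rintro ⟨h1, h2⟩
    obtain ⟨h, h3⟩ := (mem_coneE hP).1 h1
    exact ⟨h, h3, by rw [← uE_eq Λ u h]; exact sub_mem_iff.1 h2⟩

theorem isTangent_iff (hP : Homog P) {x v : EN N} (hx : x ∈ coneE P) :
    IsTangent (projVar P) ((LE N).symm x) ((LE N).symm v) ↔ Tan (coneE P) x v := by
  constructor
  · rintro ⟨γ, hγ, h0, h1, h2⟩
    refine ⟨fun z => (LE N) (γ z), ⟨((LE N : (Fin (N + 1) → ℂ) →L[ℂ] EN N).analyticAt _).comp hγ, ?_⟩, ?_, ?_⟩
    · filter_upwards [h2] with z hz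
      obtain ⟨h3, h4⟩ := hz
      rw [mem_coneE hP]
      have h5 : (LE N).symm ((LE N) (γ z)) = γ z := ContinuousLinearEquiv.symm_apply_apply _ _
      rw [h5]
      exact ⟨h3, h4⟩
    · show (LE N) (γ 0) = x
      rw [h0, ContinuousLinearEquiv.apply_symm_apply]
    · have h3 : HasDerivAt (fun z => (LE N) (γ z)) ((LE N) (deriv γ 0)) 0 :=
        (LE N : (Fin (N + 1) → ℂ) →L[ℂ] EN N).hasFDerivAt.comp_hasDerivAt 0 hγ.differentiableAt.hasDerivAt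
      rw [h3.deriv, h1, ContinuousLinearEquiv.apply_symm_apply]
  · rintro ⟨F, ⟨hF, hFX⟩, h0, h1⟩
    refine ⟨fun z => (LE N).symm (F z), (((LE N).symm : EN N →L[ℂ] (Fin (N + 1) → ℂ)).analyticAt _).comp hF, by simp only [h0], ?_, ?_⟩
    · have h3 : HasDerivAt (fun z => (LE N).symm (F z)) ((LE N).symm (deriv F 0)) 0 :=
        ((LE N).symm : EN N →L[ℂ] (Fin (N + 1) → ℂ)).hasFDerivAt.comp_hasDerivAt 0 hF.differentiableAt.hasDerivAt
      rw [h3.deriv, h1]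
    · filter_upwards [hFX] with z hz
      exact (mem_coneE hP).1 hz

/-- a parametrisation with a left inverse is a germ chart for some left inverse -/
private theorem chg_germ {X : Set (EN N)} (hX : IsCone X) (hC : Charts X) {σ : ℂ × ℂ → EN N} {τ : EN N → ℂ × ℂ} (hx : σ 0 ∈ X)
    (hσ : AnalyticAt ℂ σ 0) (hσX : ∀ᶠ p in 𝓝 (0 : ℂ × ℂ), σ p ∈ X) (hτ : AnalyticAt ℂ τ (σ 0)) (hl : ∀ᶠ p in 𝓝 (0 : ℂ × ℂ), τ (σ p) = p)
    (hr : ∀ᶠ y in 𝓝 (σ 0), y ∈ X → ∃ a : ℂ, a ≠ 0 ∧ y = a • σ (τ y)) : ∃ τ' : EN N → ℂ × ℂ, IsGermChart X σ τ' := by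
  obtain ⟨χ, hU, hq⟩ := hC (σ 0) hx
  have hτ0 : τ (σ 0) = 0 := hl.self_of_nhds
  have h0b : (0 : ℂ × ℂ) ∈ ball (0 : ℂ × ℂ) 2 := mem_ball_self (by norm_num)
  obtain ⟨a₀, ha₀, hxa⟩ := (χ.surj (σ 0) hx hU).2
  rw [hq] at hxa
  -- the function h
  have hhan : AnalyticAt ℂ (fun p => χ.q (σ p)) 0 := AnalyticAt.fun_comp (χ.q_an _ hU) hσ
  have hh0 : χ.q (σ 0) = 0 := hq
  -- the function k
  have hsan : AnalyticAt ℂ (fun p => a₀ • χ.σ p) 0 := (χ.σ_an 0 h0b).fun_const_smul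
  have hkan : AnalyticAt ℂ (fun p => τ (a₀ • χ.σ p)) 0 := by
    refine AnalyticAt.fun_comp (g := τ) (f := fun p => a₀ • χ.σ p) ?_ hsan
    show AnalyticAt ℂ τ (a₀ • χ.σ 0)
    rw [← hxa]
    exact hτ
  have hk0 : τ (a₀ • χ.σ 0) = 0 := by rw [← hxa, hτ0]
  have hst : Tendsto (fun p => a₀ • χ.σ p) (𝓝 0) (𝓝 (σ 0)) := by
    have h1 := hsan.continuousAt.tendsto
    rwa [← hxa] at h1
  have hkt : Tendsto (fun p => τ (a₀ • χ.σ p)) (𝓝 0) (𝓝 0) := by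
    have h1 := hkan.continuousAt.tendsto
    rwa [hk0] at h1
  have hht : Tendsto (fun p => χ.q (σ p)) (𝓝 0) (𝓝 0) := by
    have h1 := hhan.continuousAt.tendsto
    rwa [hh0] at h1
  have hball : ∀ᶠ p in 𝓝 (0 : ℂ × ℂ), p ∈ ball (0 : ℂ × ℂ) 2 := isOpen_ball.mem_nhds h0b
  -- key identity
  have hkey : ∀ᶠ p in 𝓝 (0 : ℂ × ℂ), (∃ a : ℂ, a ≠ 0 ∧ a₀ • χ.σ p = a • σ (τ (a₀ • χ.σ p))) ∧ χ.q (σ (τ (a₀ • χ.σ p))) = p := by
    have h1 := hst.eventually hr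
    have h2 : ∀ᶠ p in 𝓝 (0 : ℂ × ℂ), σ (τ (a₀ • χ.σ p)) ∈ χ.U := by
      have h3 : Tendsto (fun p => σ (τ (a₀ • χ.σ p))) (𝓝 0) (𝓝 (σ 0)) := hσ.continuousAt.tendsto.comp hkt
      exact h3.eventually (χ.isOpen_U.mem_nhds hU)
    filter_upwards [h1, h2, hball] with p hp1 hp2 hp3
    obtain ⟨h4, h5, h6⟩ := χ.σ_mem p hp3
    obtain ⟨a, ha, h7⟩ := hp1 (hX.smul_mem _ h4 a₀ ha₀)
    refine ⟨⟨a, ha, h7⟩, ?_⟩
    have h8 := χ.q_smul _ hp2 a ha
    rw [← h7, χ.q_smul _ h5 a₀ ha₀, h6] at h8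
    exact h8.symm
  -- the derivative of k is surjective
  have hcomp : (fderiv ℂ (fun p => χ.q (σ p)) 0).comp (fderiv ℂ (fun p => τ (a₀ • χ.σ p)) 0) = ContinuousLinearMap.id ℂ (ℂ × ℂ) := by
    have h1 : HasFDerivAt (fun p => χ.q (σ p)) (fderiv ℂ (fun p => χ.q (σ p)) 0) (τ (a₀ • χ.σ 0)) := by
      rw [hk0]
      exact hhan.differentiableAt.hasFDerivAt
    have h2 : HasFDerivAt (fun p => τ (a₀ • χ.σ p)) (fderiv ℂ (fun p => τ (a₀ • χ.σ p)) 0) 0 := hkan.differentiableAt.hasFDerivAt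
    have h3 := h1.comp (f := fun p => τ (a₀ • χ.σ p)) 0 h2
    have h4 : HasFDerivAt (fun p : ℂ × ℂ => p) (ContinuousLinearMap.id ℂ (ℂ × ℂ)) 0 := hasFDerivAt_id 0
    have h5 : (fun p => p) =ᶠ[𝓝 (0 : ℂ × ℂ)] (fun p => χ.q (σ p)) ∘ (fun p => τ (a₀ • χ.σ p)) := by
      filter_upwards [hkey] with p hp
      exact hp.2.symm
    exact (h3.congr_of_eventuallyEq h5).unique h4
  have hinj : Function.Injective (fderiv ℂ (fun p => τ (a₀ • χ.σ p)) 0 : ℂ × ℂ → ℂ × ℂ) := by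
    intro v w hvw
    have h1 := congrArg (fun L : ℂ × ℂ →L[ℂ] ℂ × ℂ => L v) hcomp
    have h2 := congrArg (fun L : ℂ × ℂ →L[ℂ] ℂ × ℂ => L w) hcomp
    simp only [ContinuousLinearMap.comp_apply, ContinuousLinearMap.id_apply] at h1 h2
    rw [← h1, ← h2, hvw]
  have hsurj : (fderiv ℂ (fun p => τ (a₀ • χ.σ p)) 0).range = ⊤ := by
    rw [LinearMap.range_eq_top]
    exact (LinearMap.injective_iff_surjective (f := ((fderiv ℂ (fun p => τ (a₀ • χ.σ p)) 0 : ℂ × ℂ →L[ℂ] ℂ × ℂ) : ℂ × ℂ →ₗ[ℂ] ℂ × ℂ))).1 hinj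
  have hmap : Filter.map (fun p => τ (a₀ • χ.σ p)) (𝓝 0) = 𝓝 (0 : ℂ × ℂ) := by
    have h1 := (hkan.hasStrictFDerivAt).map_nhds_eq_of_surj hsurj
    rwa [hk0] at h1
  have hkh : ∀ᶠ p in 𝓝 (0 : ℂ × ℂ), τ (a₀ • χ.σ (χ.q (σ p))) = p := by
    have h1 : ∀ᶠ q in Filter.map (fun p => τ (a₀ • χ.σ p)) (𝓝 0), τ (a₀ • χ.σ (χ.q (σ q))) = q := by
      rw [Filter.eventually_map]
      filter_upwards [hkey] with p hp
      rw [hp.2]
    rwa [hmap] at h1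
  have hqt : Tendsto χ.q (𝓝 (σ 0)) (𝓝 0) := by
    have h1 := (χ.q_an _ hU).continuousAt.tendsto
    rwa [hq] at h1
  have hUev : ∀ᶠ y in 𝓝 (σ 0), y ∈ χ.U := χ.isOpen_U.mem_nhds hU
  refine ⟨fun y => τ (a₀ • χ.σ (χ.q y)), hσ, hσX, ?_, hkh, ?_, ?_⟩
  · refine AnalyticAt.fun_comp (g := fun p => τ (a₀ • χ.σ p)) (f := χ.q) ?_ (χ.q_an _ hU)
    rw [hq]
    exact hkan
  · filter_upwards [hqt.eventually hkey, hUev] with y hy1 hy2 hyX
    obtain ⟨⟨a, ha, h1⟩, -⟩ := hy1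
    obtain ⟨-, c, hc, h2⟩ := χ.surj y hyX hy2
    refine ⟨c * a₀⁻¹ * a, mul_ne_zero (mul_ne_zero hc (inv_ne_zero ha₀)) ha, ?_⟩
    show y = (c * a₀⁻¹ * a) • σ (τ (a₀ • χ.σ (χ.q y)))
    rw [mul_smul, ← h1, smul_smul, mul_assoc, inv_mul_cancel₀ ha₀, mul_one]
    exact h2
  · have h1 : ∀ᶠ z in 𝓝 (σ 0, (1 : ℂ)), z.1 ∈ χ.U := (continuousAt_fst (p := (σ 0, (1 : ℂ)))).eventually hUev
    have h2 : ∀ᶠ z in 𝓝 (σ 0, (1 : ℂ)), z.2 ≠ 0 := (continuousAt_snd (p := (σ 0, (1 : ℂ)))).eventually_ne one_ne_zero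
    filter_upwards [h1, h2] with z hz1 hz2
    rw [χ.q_smul _ hz1 _ hz2]

theorem isNC_of (hP : Homog P) (hS : Surface (cone P)) (hnc : ∀ x ∈ projVar P, IsNCPoint (projVar P) Λ u x) {x : EN N}
    (hx : x ∈ coneE P) : ∃ b : ℂ, uE Λ u x - b ∈ Λ ∧ ∃ (σ : ℂ × ℂ → EN N) (τ : EN N → ℂ × ℂ) (i j : ℕ), 1 ≤ i ∧ IsGermChart (coneE P) σ τ ∧ σ 0 = x ∧
      ∀ᶠ p in 𝓝 (0 : ℂ × ℂ), uE Λ u (σ p) - (b + p.1 ^ i * p.2 ^ j) ∈ Λ := by
  obtain ⟨hx0, hxP⟩ := (mem_coneE hP).1 hx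
  obtain ⟨σ, τ, c, i, j, hi, hσ, hτ, ⟨hσ0, hσz⟩, hl, hr, hn⟩ := hnc _ hxP
  rw [Projectivization.mk_eq_mk_iff'] at hσz
  obtain ⟨b, hb⟩ := hσz
  have hb0 : b ≠ 0 := by
    rintro rfl
    rw [zero_smul] at hb
    exact hσ0 hb.symm
  have hFz : x = (LE N) (b⁻¹ • σ 0) := by
    rw [← hb, smul_smul, inv_mul_cancel₀ hb0, one_smul, ContinuousLinearEquiv.apply_symm_apply]
  have hbF : b • (LE N).symm x = σ 0 := hb
  have hlin : AnalyticAt ℂ (fun y : EN N => b • (LE N).symm y) x := by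
    exact (((LE N).symm : EN N →L[ℂ] (Fin (N + 1) → ℂ)).analyticAt x).fun_const_smul
  have hσ' : AnalyticAt ℂ (fun p => (LE N) (b⁻¹ • σ p)) 0 := by
    have h1 : AnalyticAt ℂ (fun p => b⁻¹ • σ p) 0 := hσ.fun_const_smul
    exact ((LE N : (Fin (N + 1) → ℂ) →L[ℂ] EN N).analyticAt _).comp h1
  have hσX : ∀ᶠ p in 𝓝 (0 : ℂ × ℂ), (LE N) (b⁻¹ • σ p) ∈ coneE P := by
    filter_upwards [hn] with p hp
    obtain ⟨h1, h2, -⟩ := hp
    show (LE N).symm ((LE N) (b⁻¹ • σ p)) ∈ cone P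
    rw [ContinuousLinearEquiv.symm_apply_apply]
    have h3 : b⁻¹ • σ p ≠ 0 := smul_ne_zero (inv_ne_zero hb0) h1
    apply (mk_mem_projVar hP h3).1
    have h4 : Projectivization.mk ℂ (b⁻¹ • σ p) h3 = Projectivization.mk ℂ (σ p) h1 := by
      rw [Projectivization.mk_eq_mk_iff']
      exact ⟨b⁻¹, rfl⟩
    rw [h4]
    exact h2
  have hval : ∀ᶠ p in 𝓝 (0 : ℂ × ℂ), uE Λ u ((LE N) (b⁻¹ • σ p)) - (c + p.1 ^ i * p.2 ^ j) ∈ Λ := by
    filter_upwards [hn] with p hp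
    obtain ⟨h1, h2, h3⟩ := hp
    have h4 : (LE N).symm ((LE N) (b⁻¹ • σ p)) ≠ 0 := by
      rw [ContinuousLinearEquiv.symm_apply_apply]
      exact smul_ne_zero (inv_ne_zero hb0) h1
    rw [sub_mem_iff, uE_eq Λ u h4, ← h3]
    congr 1
    rw [Projectivization.mk_eq_mk_iff']
    refine ⟨b⁻¹, ?_⟩
    rw [ContinuousLinearEquiv.symm_apply_apply]
  have hlft : ∀ᶠ p in 𝓝 (0 : ℂ × ℂ), τ (b • (LE N).symm ((LE N) (b⁻¹ • σ p))) = p := by
    filter_upwards [hl] with p hp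
    rw [ContinuousLinearEquiv.symm_apply_apply, smul_smul, mul_inv_cancel₀ hb0, one_smul]
    exact hp
  have hrgt : ∀ᶠ y in 𝓝 x, y ∈ coneE P → ∃ a : ℂ, a ≠ 0 ∧ y = a • (LE N) (b⁻¹ • σ (τ (b • (LE N).symm y))) := by
    have h1 : Tendsto (fun y : EN N => b • (LE N).symm y) (𝓝 x) (𝓝 (σ 0)) := by
      have := hlin.continuousAt.tendsto
      rwa [hbF] at this
    filter_upwards [h1.eventually hr] with y hy hyX
    have h2 : b • (LE N).symm y ∈ cone P := by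
      have h3 : (LE N).symm y ≠ 0 := hyX.1
      refine ⟨smul_ne_zero hb0 h3, ?_⟩
      have := (mk_mem_projVar hP (smul_ne_zero hb0 h3)).1 (by
        have h5 : Projectivization.mk ℂ (b • (LE N).symm y) (smul_ne_zero hb0 h3) = Projectivization.mk ℂ ((LE N).symm y) h3 := by
          rw [Projectivization.mk_eq_mk_iff']
          exact ⟨b, rfl⟩
        rw [h5]
        exact (mk_mem_projVar hP h3).2 hyX)
      exact this.2
    obtain ⟨a, ha, ha'⟩ := hy h2.1 ((mk_mem_projVar hP h2.1).2 h2)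
    refine ⟨a, ha, ?_⟩
    have h6 := congrArg (fun v => (LE N) (b⁻¹ • v)) ha'
    have h7 : (LE N) (b⁻¹ • (b • (LE N).symm y)) = y := by
      rw [smul_smul, inv_mul_cancel₀ hb0, one_smul, ContinuousLinearEquiv.apply_symm_apply]
    have h8 : y = (LE N) (b⁻¹ • (a • σ (τ (b • (LE N).symm y)))) := h7.symm.trans h6
    show y = a • (LE N) (b⁻¹ • σ (τ (b • (LE N).symm y)))
    rw [← map_smul, smul_smul, mul_comm, ← smul_smul]
    exact h8
  have hτ' : AnalyticAt ℂ (fun y : EN N => τ (b • (LE N).symm y)) x := by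
    have h1 : AnalyticAt ℂ τ (b • (LE N).symm x) := by rw [hbF]; exact hτ
    exact AnalyticAt.comp (g := τ) (f := fun y : EN N => b • (LE N).symm y) h1 hlin
  have hcone : IsCone (coneE P) := Pool.Agent.H36.BP.isCone_transport (LE N) hS
  obtain ⟨τ', hτ''⟩ := chg_germ (X := coneE P) hcone (Pool.Agent.H17EF.charts hS) (σ := fun p => (LE N) (b⁻¹ • σ p))
    (τ := fun y => τ (b • (LE N).symm y)) (by show (LE N) (b⁻¹ • σ 0) ∈ coneE P; rw [← hFz]; exact hx) hσ' hσX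
    (by show AnalyticAt ℂ _ ((LE N) (b⁻¹ • σ 0)); rw [← hFz]; exact hτ') hlft
    (by show ∀ᶠ y in 𝓝 ((LE N) (b⁻¹ • σ 0)), _; rw [← hFz]; exact hrgt)
  refine ⟨c, ?_, fun p => (LE N) (b⁻¹ • σ p), τ', i, j, hi, hτ'', hFz.symm, hval⟩
  have h1 := hval.self_of_nhds
  rw [← hFz] at h1
  simpa [show i ≠ 0 by omega] using h1

/-- the form on the covering of the cone -/
def tform (hP : Homog P) {Ω : ℂ → (Fin (N + 1) → ℂ) → (Fin (N + 1) → ℂ) → (Fin (N + 1) → ℂ) → ℂ} (hΩ : IsTwoForm (projVar P) Λ Γ u Ω) :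
    TForm (coneE P) Λ (uE Λ u) where
  toFun z x v w := Ω z ((LE N).symm x) ((LE N).symm v) ((LE N).symm w)
  add_smul := by
    intro z x hx hz v w hv hw a b
    rw [map_add, map_add, map_smul, map_smul]
    exact hΩ.horizontal z _ ((over_iff hP).2 ⟨hx, hz⟩) _ _ ((isTangent_iff hP hx).2 hv) ((isTangent_iff hP hx).2 hw) a b
  det := by
    intro z x hx hz v w hv hw a b c d
    rw [map_add, map_add, map_smul, map_smul, map_smul, map_smul]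
    exact hΩ.alternating z _ ((over_iff hP).2 ⟨hx, hz⟩) _ _ ((isTangent_iff hP hx).2 hv) ((isTangent_iff hP hx).2 hw) a b c d
  scale := by
    intro z x hx hz v w hv hw c hc
    rw [map_smul, map_smul, map_smul]
    exact hΩ.homogeneous z _ ((over_iff hP).2 ⟨hx, hz⟩) _ _ ((isTangent_iff hP hx).2 hv) ((isTangent_iff hP hx).2 hw) c hc
  analytic := by
    intro φ υ p hφ hυ hφX
    have h1 : AnalyticAt ℂ (fun y => (LE N).symm (φ y)) p := (((LE N).symm : EN N →L[ℂ] (Fin (N + 1) → ℂ)).analyticAt _).comp hφ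
    have h2 := hΩ.holomorphic _ υ p h1 hυ (by
      filter_upwards [hφX] with y hy
      exact (over_iff hP).2 hy)
    refine h2.congr ?_
    filter_upwards [hφ.eventually_analyticAt] with y hy
    have h3 : HasFDerivAt (fun y => (LE N).symm (φ y)) (((LE N).symm : EN N →L[ℂ] (Fin (N + 1) → ℂ)).comp (fderiv ℂ φ y)) y :=
      ((LE N).symm : EN N →L[ℂ] (Fin (N + 1) → ℂ)).hasFDerivAt.comp y hy.differentiableAt.hasFDerivAt
    rw [h3.fderiv]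
    rfl

theorem tform_per (hP : Homog P) {Ω : ℂ → (Fin (N + 1) → ℂ) → (Fin (N + 1) → ℂ) → (Fin (N + 1) → ℂ) → ℂ}
    (hΩ : IsTwoForm (projVar P) Λ Γ u Ω) : Per (tform hP hΩ) Γ := by
  intro z l hl x hx hz v w hv hw
  exact hΩ.periodic z l hl _ ((over_iff hP).2 ⟨hx, hz⟩) _ _ ((isTangent_iff hP hx).2 hv) ((isTangent_iff hP hx).2 hw)

private theorem chg_uE_smul {x : EN N} (hx : x ∈ coneE P) {c : ℂ} (hc : c ≠ 0) : uE Λ u (c • x) - uE Λ u x ∈ Λ := by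
  have h1 : (LE N).symm x ≠ 0 := hx.1
  have h2 : (LE N).symm (c • x) ≠ 0 := by
    rw [map_smul]
    exact smul_ne_zero hc h1
  rw [sub_mem_iff, uE_eq Λ u h1, uE_eq Λ u h2]
  congr 1
  rw [Projectivization.mk_eq_mk_iff']
  exact ⟨c, (map_smul _ _ _).symm⟩

private theorem chg_cone (hP : Homog P) : IsCone (coneE P) := by
  refine ⟨fun h => ?_, ?_, ?_⟩
  · exact h.1 (map_zero _)
  · intro x hx c hc
    have h1 : (LE N).symm x ≠ 0 := hx.1
    have h2 : (LE N).symm (c • x) ≠ 0 := by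
      rw [map_smul]
      exact smul_ne_zero hc h1
    refine (mem_coneE hP).2 ⟨h2, ?_⟩
    have h3 : Projectivization.mk ℂ ((LE N).symm (c • x)) h2 = Projectivization.mk ℂ ((LE N).symm x) h1 := by
      rw [Projectivization.mk_eq_mk_iff']
      exact ⟨c, (map_smul _ _ _).symm⟩
    rw [h3]
    exact (mk_mem_projVar hP h1).2 hx
  · have h1 : (insert (0 : EN N) (coneE P)) = {0} ∪ ⋂ Q ∈ P, {x : EN N | eval ((LE N).symm x) Q = 0} := by
      ext x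
      constructor
      · rintro (h | h)
        · exact Or.inl h
        · right
          rw [Set.mem_iInter₂]
          intro Q hQ
          exact h.2 Q hQ
      · rintro (h | h)
        · exact Or.inl h
        · rw [Set.mem_iInter₂] at h
          by_cases h0 : x = 0
          · exact Or.inl h0
          · right
            refine ⟨fun h2 => h0 ?_, fun Q hQ => h Q hQ⟩
            have h3 := congrArg (LE N) h2
            rwa [ContinuousLinearEquiv.apply_symm_apply, map_zero] at h3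
    rw [h1]
    refine isClosed_singleton.union (isClosed_biInter fun Q _ => ?_)
    have h2 : Continuous fun x : EN N => eval ((LE N).symm x) Q := (MvPolynomial.continuous_eval Q).comp (LE N).symm.continuous
    exact isClosed_eq h2 continuous_const

private theorem chg_tan {X : Set (EN N)} (hX : IsCone X) (χ : Chart X) {x V : EN N} (hV : Tan X x V) (hU : x ∈ χ.U) {c : ℂ}
    (hc : x = c • χ.σ (χ.q x)) : ∃ (e : ℂ × ℂ) (a : ℂ), c⁻¹ • V = fderiv ℂ χ.σ (χ.q x) e + a • χ.σ (χ.q x) := by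
  obtain ⟨F, hF, h0, h1⟩ := hV
  have hF0U : F 0 ∈ χ.U := by rw [h0]; exact hU
  obtain ⟨hq, -, g, hg, hg0, hev⟩ := Chart.curve hX χ hF hF0U
  have hxX : x ∈ X := by rw [← h0]; exact hF.mem
  have hb : χ.q x ∈ ball (0 : ℂ × ℂ) 2 := (χ.surj x hxX hU).1
  have hσ0 : χ.σ (χ.q x) ≠ 0 := Chart.sigma_ne_zero hX χ hb
  have hcg : g 0 = c := by
    have h2 := hev.self_of_nhds.2
    rw [h0] at h2
    have h3 : (g 0 - c) • χ.σ (χ.q x) = 0 := by
      rw [sub_smul, ← h2, ← hc, sub_self]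
    exact sub_eq_zero.1 ((smul_eq_zero.1 h3).resolve_right hσ0)
  have hc0 : c ≠ 0 := by rw [← hcg]; exact hg0
  have h2 : HasDerivAt (fun z => χ.σ (χ.q (F z))) (fderiv ℂ χ.σ (χ.q x) (deriv (fun z => χ.q (F z)) 0)) 0 := by
    have h3 : HasFDerivAt χ.σ (fderiv ℂ χ.σ (χ.q x)) (χ.q (F 0)) := by
      rw [h0]
      exact (χ.σ_an _ hb).differentiableAt.hasFDerivAt
    exact h3.comp_hasDerivAt (0 : ℂ) hq.differentiableAt.hasDerivAt
  have h3 := hg.differentiableAt.hasDerivAt.smul h2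
  have h4 : HasDerivAt F V 0 := by
    rw [← h1]
    exact hF.1.differentiableAt.hasDerivAt
  have h5 : F =ᶠ[𝓝 0] fun z => g z • χ.σ (χ.q (F z)) := by
    filter_upwards [hev] with z hz
    exact hz.2
  have h6 := h4.unique (h3.congr_of_eventuallyEq h5)
  refine ⟨deriv (fun z => χ.q (F z)) 0, c⁻¹ * deriv g 0, ?_⟩
  rw [h6, h0, hcg, smul_add, smul_smul, inv_mul_cancel₀ hc0, one_smul, smul_smul]

theorem tform_thin (hP : Homog P) {Ω : ℂ → (Fin (N + 1) → ℂ) → (Fin (N + 1) → ℂ) → (Fin (N + 1) → ℂ) → ℂ}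
    (hΩ : IsTwoForm (projVar P) Λ Γ u Ω) (hΛ : Lat Λ) (hnz : IsNowhereZero (projVar P) Λ u Ω) : Thin (tform hP hΩ) := by
  intro χ υ p hp hυ hlift htc
  have hX : IsCone (coneE P) := chg_cone hP
  obtain ⟨δ, hδ, hdisc⟩ := hΛ.discrete
  obtain ⟨hpX, hpU, hpq⟩ := χ.σ_mem p hp
  have hover : Over (projVar P) Λ u (υ p) ((LE N).symm (χ.σ p)) := (over_iff hP).2 ⟨hpX, hlift.self_of_nhds⟩
  refine (hnz _ _ hover) ?_
  -- the point of the cone
  have hLEt : Tendsto (fun q : ℂ × (Fin (N + 1) → ℂ) => (LE N) q.2) (𝓝 (υ p, (LE N).symm (χ.σ p))) (𝓝 (χ.σ p)) := by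
    have h1 : Continuous (fun q : ℂ × (Fin (N + 1) → ℂ) => (LE N) q.2) := (LE N).continuous.comp continuous_snd
    have h2 := h1.tendsto (υ p, (LE N).symm (χ.σ p))
    simp only [ContinuousLinearEquiv.apply_symm_apply] at h2
    exact h2
  have hqt : Tendsto (fun q : ℂ × (Fin (N + 1) → ℂ) => χ.q ((LE N) q.2)) (𝓝 (υ p, (LE N).symm (χ.σ p))) (𝓝 p) := by
    have h1 := (χ.q_an _ hpU).continuousAt.tendsto.comp hLEt
    rwa [hpq] at h1
  have hev1 : ∀ᶠ q in 𝓝 (υ p, (LE N).symm (χ.σ p)), (LE N) q.2 ∈ χ.U := hLEt.eventually (χ.isOpen_U.mem_nhds hpU)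
  have hev2 : ∀ᶠ y in 𝓝 p, ‖υ y - υ p‖ < δ / 2 := by
    have h1 : Tendsto (fun y => ‖υ y - υ p‖) (𝓝 p) (𝓝 ‖υ p - υ p‖) := (hυ.continuousAt.tendsto.sub_const _).norm
    rw [sub_self, norm_zero] at h1
    exact h1.eventually_lt_const (by positivity)
  have hev3 : ∀ᶠ q : ℂ × (Fin (N + 1) → ℂ) in 𝓝 (υ p, (LE N).symm (χ.σ p)), ‖q.1 - υ p‖ < δ / 2 := by
    have h0 : Tendsto (fun q : ℂ × (Fin (N + 1) → ℂ) => q.1) (𝓝 (υ p, (LE N).symm (χ.σ p))) (𝓝 (υ p)) := continuousAt_fst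
    have h1 : Tendsto (fun q : ℂ × (Fin (N + 1) → ℂ) => ‖q.1 - υ p‖) (𝓝 (υ p, (LE N).symm (χ.σ p))) (𝓝 ‖υ p - υ p‖) := (h0.sub_const _).norm
    rw [sub_self, norm_zero] at h1
    exact h1.eventually_lt_const (by positivity)
  filter_upwards [hev1, hev3, hqt.eventually hev2, hqt.eventually hlift, hqt.eventually htc] with q hq1 hq3 hq2 hq4 hq5
  rintro ⟨hov, v, w, hv, hw, hne⟩
  apply hne
  set x : EN N := (LE N) q.2 with hx
  have hxs : (LE N).symm x = q.2 := ContinuousLinearEquiv.symm_apply_apply _ _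
  set V : EN N := (LE N) v with hVdef
  have hVs : (LE N).symm V = v := ContinuousLinearEquiv.symm_apply_apply _ _
  set W : EN N := (LE N) w with hWdef
  have hWs : (LE N).symm W = w := ContinuousLinearEquiv.symm_apply_apply _ _
  rw [← hxs] at hov hv hw ⊢
  rw [← hVs] at hv ⊢
  rw [← hWs] at hw ⊢
  obtain ⟨hxX, hxz⟩ := (over_iff hP).1 hov
  have hV := (isTangent_iff hP hxX).1 hv
  have hW := (isTangent_iff hP hxX).1 hw
  obtain ⟨hb, c, hc, hxc⟩ := χ.surj x hxX hq1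
  obtain ⟨hyX, hyU, hyq⟩ := χ.σ_mem _ hb
  -- the value of z
  have hz : q.1 = υ (χ.q x) := by
    have h1 : uE Λ u x - uE Λ u (χ.σ (χ.q x)) ∈ Λ := by
      have h2 := chg_uE_smul (Λ := Λ) (u := u) hyX hc
      rwa [← hxc] at h2
    have h2 : q.1 - υ (χ.q x) ∈ Λ := by
      have h3 := Λ.add_mem (Λ.sub_mem h1 hxz) hq4
      have h4 : uE Λ u x - uE Λ u (χ.σ (χ.q x)) - (uE Λ u x - q.1) + (uE Λ u (χ.σ (χ.q x)) - υ (χ.q x)) = q.1 - υ (χ.q x) := by ring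
      rwa [h4] at h3
    have h3 : ‖q.1 - υ (χ.q x)‖ < δ := by
      calc ‖q.1 - υ (χ.q x)‖ = ‖(q.1 - υ p) - (υ (χ.q x) - υ p)‖ := by ring_nf
        _ ≤ ‖q.1 - υ p‖ + ‖υ (χ.q x) - υ p‖ := norm_sub_le _ _
        _ < δ / 2 + δ / 2 := add_lt_add hq3 hq2
        _ = δ := by ring
    exact sub_eq_zero.1 (hdisc _ h2 h3)
  obtain ⟨e, a, he⟩ := chg_tan hX χ hV hq1 hxc
  obtain ⟨e', a', he'⟩ := chg_tan hX χ hW hq1 hxc
  have hop : Pool.Agent.H14.PP.IsOpenPart (coneE P) (coneE P) := ⟨le_refl _, hX.smul_mem, fun x _ => Filter.Eventually.of_forall fun y h => h⟩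
  have hT : ∀ e : ℂ × ℂ, Tan (coneE P) (χ.σ (χ.q x)) (fderiv ℂ χ.σ (χ.q x) e) := fun e => Chart.tan hop χ hb hyX e
  have hlin : ∀ e : ℂ × ℂ, fderiv ℂ χ.σ (χ.q x) e = e.1 • fderiv ℂ χ.σ (χ.q x) (1, 0) + e.2 • fderiv ℂ χ.σ (χ.q x) (0, 1) := by
    intro e
    have h1 : e = e.1 • ((1 : ℂ), (0 : ℂ)) + e.2 • ((0 : ℂ), (1 : ℂ)) := by
      ext <;> simp
    conv_lhs => rw [h1]
    rw [map_add, map_smul, map_smul]
  have hxc' : c⁻¹ • x = χ.σ (χ.q x) := by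
    conv_lhs => rw [hxc]
    rw [smul_smul, inv_mul_cancel₀ hc, one_smul]
  have hz1 : uE Λ u (χ.σ (χ.q x)) - q.1 ∈ Λ := by rw [hz]; exact hq4
  have h1 := (tform hP hΩ).scale q.1 x hxX hxz V W hV hW c⁻¹ (inv_ne_zero hc)
  rw [hxc', he, he', (tform hP hΩ).add_smul _ _ hyX hz1 _ _ (hT e) (hT e'), hlin e, hlin e',
    (tform hP hΩ).det _ _ hyX hz1 _ _ (hT _) (hT _)] at h1
  have h2 : (tform hP hΩ).toFun q.1 (χ.σ (χ.q x)) (fderiv ℂ χ.σ (χ.q x) (1, 0)) (fderiv ℂ χ.σ (χ.q x) (0, 1)) = 0 := by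
    have h3 : tc (tform hP hΩ) χ υ (χ.q x) = 0 := hq5
    unfold tc at h3
    rw [← hz] at h3
    exact h3
  rw [h2, mul_zero] at h1
  exact h1.symm

theorem tform_van (hP : Homog P) {Ω : ℂ → (Fin (N + 1) → ℂ) → (Fin (N + 1) → ℂ) → (Fin (N + 1) → ℂ) → ℂ}
    (hΩ : IsTwoForm (projVar P) Λ Γ u Ω) {c : ℂ} (hv : VanishesOver (projVar P) Λ u Ω c) :
    ∀ x ∈ coneE P, uE Λ u x - c ∈ Λ → ∀ v w, Tan (coneE P) x v → Tan (coneE P) x w → (tform hP hΩ).toFun c x v w = 0 := by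
  intro x hx hxc v w hv' hw'
  exact hv _ ((over_iff hP).2 ⟨hx, hxc⟩) _ _ ((isTangent_iff hP hx).2 hv') ((isTangent_iff hP hx).2 hw')

end Pool.Agent.H17G
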