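import Pool.Agent.H17G.ChG
import Pool.Agent.H17EF.MainE
import Pool.Agent.EG.Bad

set_option autoImplicit false

open Topology Filter Metric MvPolynomial

noncomputable section

namespace Pool.Agent.H17G

open Pool.Agent.H17 (PN VanishesAt HolomorphicInto)
open Pool.Agent.H62.FC (Homog)
open Pool.Agent.H62.EF (MN pr Lat TorusMap Sec DU Charts SS)
open Pool.Agent.H17BP (Surface)
open Pool.Agent.H17LG.Variety (FunField IsLogGeneralType)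
open Pool.Agent.H13.SM (cone conTan)
open Pool.Agent.H36.BP (EN IsGermChart)
open Pool.Agent.H14.PP (IsCone Chart Tan)
open Pool.Agent.H17EF (projVar IsHolomorphicMap coneE uE LE GT)

variable {N : ℕ} {P : Ideal (MvPolynomial (Fin (N + 1)) ℂ)} {Λ Γ : AddSubgroup ℂ} {u : PN N → ℂ ⧸ Λ}

/-- (helper5) the entire curves in the fibres lie over a discrete set -/
theorem exists_bad [P.IsPrime] {z : Fin 2 → FunField P} (hP : Homog P) (hz : IsTranscendenceBasis ℂ z)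
    (hsm : ∀ y : Fin (N + 1) → ℂ, y ≠ 0 → (∀ Q ∈ P, eval y Q = 0) → Module.finrank ℂ (conTan P y) ≤ 3) (hgt : GT P 2)
    (hΛ : Lat Λ) (hu : IsHolomorphicMap (projVar P) Λ u) (hnc : ∀ x ∈ projVar P, IsNCPoint (projVar P) Λ u x) :
    ∃ B : Set ℂ, (∀ b ∈ B, ∀ l ∈ Λ, b + l ∈ B) ∧ (∃ δ : ℝ, 0 < δ ∧ ∀ b ∈ B, ∀ b' ∈ B, b ≠ b' → δ ≤ ‖b - b'‖) ∧
      ∀ F : ℂ → EN N, Differentiable ℂ F → (∀ z, F z ∈ coneE P) → (∀ z w, uE Λ u (F z) - uE Λ u (F w) ∈ Λ) →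
        (∃ z w, ∀ c : ℂ, F z ≠ c • F w) → ∃ b ∈ B, uE Λ u (F 0) - b ∈ Λ :=
  Pool.Agent.EG.exists_bad hP hz hsm hgt hΛ hu hnc

end Pool.Agent.H17G
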