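import Pool.Agent.H62.EF.Core
import Pool.Agent.H62.EF.Zal

/-!
# G BoundP: finitely many sections have bounded derivative

`periodic hfin` (`H62/EF/Core.lean`): there is `m ≥ 1` with `pr (F (z + m l)) = pr (F z)` for `F ∈ Sec`, `l ∈ Λ`.
(1) If `F, G` are holomorphic near `z`, not `0`, and `pr (F w) = pr (G w)` near `z` then `fs (F z) (deriv F z) = fs (G z) (deriv G z)`: `G = c • F` near `z` with `c` analytic (`pr_eq_iff`; `c = ℓ (G) / ℓ (F)` for a linear form with `ℓ (F z) ≠ 0`), so
`deriv G z = c z • deriv F z + c' z • F z`, and `wd (c x) (c v + a x) = |c|² wd x v` (`Pool.Agent.H36.BP.wd_inv`), `fs x v = wd x v / ‖x‖²` (see the definition of `fs`).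
(2) For `F ∈ Sec` the function `z ↦ fs (F z) (deriv F z)` is continuous (`F z ≠ 0`) and invariant under `z ↦ z + m l`, `l ∈ Λ` (apply (1) to `F` and `F (· + m l)`); every `z` is `w + m l` with `‖w‖ ≤ m R` (`Lat.cocompact` for `z / m`), so it is bounded by its maximum on
`closedBall 0 (m R)`.
(3) By (1) the function depends only on `pr ∘ F`, and there are finitely many `pr ∘ F` (`hfin`): take the maximum of the finitely many bounds.
-/

set_option autoImplicit false

open Topology Filter Metric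

namespace Pool.Agent.H17G

open Pool.Agent.H36.BP (EN fs wd)
open Pool.Agent.H14.PP (IsCone)
open Pool.Agent.H62.EF (MN pr Lat TorusMap Sec SS)
open Pool.Agent.H36.BP (fs_inv wd_cont)
open Pool.Agent.H62.EF (pr_eq_iff periodic)

variable {N : ℕ} {X : Set (EN N)} {Λ : AddSubgroup ℂ} {u : EN N → ℂ}

private theorem cone_ne (hX : IsCone X) {x : EN N} (hx : x ∈ X) : x ≠ 0 := by
  rintro rfl
  exact hX.zero_notMem hx

theorem fs_eq_of_pr {F G : ℂ → EN N} {z : ℂ} (hF : AnalyticAt ℂ F z) (hG : AnalyticAt ℂ G z) (hF0 : F z ≠ 0) (hG0 : G z ≠ 0)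
    (h : ∀ᶠ w in 𝓝 z, pr (F w) = pr (G w)) : fs (F z) (deriv F z) = fs (G z) (deriv G z) := by
  obtain ⟨i, hi⟩ : ∃ i, F z i ≠ 0 := by
    by_contra hcon
    push Not at hcon
    exact hF0 (by ext i; simpa using hcon i)
  have hFi : AnalyticAt ℂ (fun w => F w i) z := by
    have := (EuclideanSpace.proj (𝕜 := ℂ) i : EN N →L[ℂ] ℂ).analyticAt (F z)
    exact this.comp_of_eq hF rfl
  have hGi : AnalyticAt ℂ (fun w => G w i) z := by
    have := (EuclideanSpace.proj (𝕜 := ℂ) i : EN N →L[ℂ] ℂ).analyticAt (G z)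
    exact this.comp_of_eq hG rfl
  have key : ∀ᶠ w in 𝓝 z, G w i ≠ 0 ∧ F w = (F w i / G w i) • G w := by
    filter_upwards [h, hF.continuousAt.eventually_ne hF0, hG.continuousAt.eventually_ne hG0, hFi.continuousAt.eventually_ne hi] with w h1 h2 h3 h4
    obtain ⟨c, hc, he⟩ := (pr_eq_iff h2 h3).1 h1
    have h5 : F w i = c * G w i := by
      conv_lhs => rw [he]
      simp
    have h6 : G w i ≠ 0 := by
      intro h7
      rw [h7, mul_zero] at h5
      exact h4 h5
    refine ⟨h6, ?_⟩
    rw [h5, mul_div_assoc, div_self h6, mul_one]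
    exact he
  have hz := key.self_of_nhds
  have hc : AnalyticAt ℂ (fun w => F w i / G w i) z := hFi.div hGi hz.1
  have hd : deriv F z = (F z i / G z i) • deriv G z + deriv (fun w => F w i / G w i) z • G z := by
    have h1 : F =ᶠ[𝓝 z] fun w => (F w i / G w i) • G w := key.mono fun w hw => hw.2
    rw [h1.deriv_eq]
    exact deriv_fun_smul hc.differentiableAt hG.differentiableAt
  have hc0 : F z i / G z i ≠ 0 := div_ne_zero hi hz.1
  calc fs (F z) (deriv F z) = fs ((F z i / G z i) • G z) ((F z i / G z i) • deriv G z + deriv (fun w => F w i / G w i) z • G z) := by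
        rw [← hz.2, ← hd]
    _ = fs (G z) (deriv G z) := fs_inv hG0 _ hc0 _

private theorem fs_continuous {F : ℂ → EN N} (hFd : Differentiable ℂ F) (hF0 : ∀ z, F z ≠ 0) : Continuous fun z => fs (F z) (deriv F z) := by
  have h1 : Continuous (deriv F) := continuous_iff_continuousAt.2 fun z => (hFd.analyticAt z).deriv.continuousAt
  have h2 : Continuous (fun z => (F z, deriv F z)) := hFd.continuous.prodMk h1
  have h3 := (wd_cont (N := N)).comp h2
  have h4 : Continuous fun z => ‖F z‖ ^ 2 := hFd.continuous.norm.pow 2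
  have h5 : ∀ z, ‖F z‖ ^ 2 ≠ 0 := fun z => pow_ne_zero 2 (norm_ne_zero_iff.2 (hF0 z))
  exact Continuous.div h3 h4 h5

theorem bound_of_finite (hX : IsCone X) (hΛ : Lat Λ) (hfin : (SS X Λ u).Finite) :
    ∃ L : ℝ, 0 < L ∧ ∀ F ∈ Sec X Λ u, ∀ z, fs (F z) (deriv F z) ≤ L := by
  classical
  obtain ⟨m, hm, hper⟩ := periodic hfin
  obtain ⟨R, hR, hco⟩ := hΛ.cocompact
  have hm0 : (m : ℂ) ≠ 0 := by
    have : m ≠ 0 := by omega
    exact_mod_cast this
  -- the bound for one section
  have hone : ∀ F ∈ Sec X Λ u, ∃ B : ℝ, ∀ z, fs (F z) (deriv F z) ≤ B := by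
    intro F hF
    have hFd : Differentiable ℂ F := hF.1
    have hF0 : ∀ z, F z ≠ 0 := fun z => cone_ne hX (hF.2.1 z)
    have hcont : Continuous fun z => fs (F z) (deriv F z) := by
      exact fs_continuous hFd hF0
    obtain ⟨B, hB⟩ := (isCompact_closedBall (0 : ℂ) (m * R)).bddAbove_image hcont.continuousOn
    refine ⟨B, fun z => ?_⟩
    obtain ⟨l, hl, hlz⟩ := hco (z / m)
    have hw : z - (m : ℂ) * l ∈ closedBall (0 : ℂ) (m * R) := by
      rw [mem_closedBall_zero_iff]
      have : z - (m : ℂ) * l = (m : ℂ) * (z / m - l) := by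
        field_simp
      rw [this, norm_mul, Complex.norm_natCast]
      exact mul_le_mul_of_nonneg_left hlz (Nat.cast_nonneg m)
    have h3 := hB ⟨_, hw, rfl⟩
    have htr : deriv (fun w => F (w + (m : ℂ) * l)) (z - (m : ℂ) * l) = deriv F z := by
      rw [deriv_comp_add_const]
      congr 1
      ring
    have h4 : fs (F (z - (m : ℂ) * l)) (deriv F (z - (m : ℂ) * l)) = fs (F z) (deriv F z) := by
      have h5 := fs_eq_of_pr (F := fun w => F (w + (m : ℂ) * l)) (G := F) (z := z - (m : ℂ) * l)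
        ((hFd.comp (differentiable_id.add_const _)).analyticAt _) (hFd.analyticAt _) (hF0 _) (hF0 _)
        (Filter.Eventually.of_forall fun w => hper F hF l hl w)
      rw [htr] at h5
      simp only [sub_add_cancel] at h5
      exact h5.symm
    rw [← h4]
    exact h3
  choose! B hB using hone
  -- one section for each map to the projective space
  have hsel : ∀ f ∈ SS X Λ u, ∃ F ∈ Sec X Λ u, f = fun z => pr (F z) := fun f hf => hf
  choose! σ hσ hσe using hsel
  obtain ⟨C, hC⟩ := (hfin.image fun f => B (σ f)).bddAbove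
  refine ⟨max C 1, lt_max_of_lt_right one_pos, fun F hF z => ?_⟩
  have hf : (fun z => pr (F z)) ∈ SS X Λ u := ⟨F, hF, rfl⟩
  have h1 : fs (F z) (deriv F z) = fs (σ (fun z => pr (F z)) z) (deriv (σ fun z => pr (F z)) z) := by
    refine fs_eq_of_pr (hF.1.analyticAt z) ((hσ _ hf).1.analyticAt z) (cone_ne hX (hF.2.1 z)) (cone_ne hX ((hσ _ hf).2.1 z))
      (Filter.Eventually.of_forall fun w => ?_)
    exact congrFun (hσe _ hf) w
  rw [h1]
  exact (hB _ (hσ _ hf) z).trans ((hC ⟨_, hf, rfl⟩).trans (le_max_left _ _))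

end Pool.Agent.H17G
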