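import Pool.Agent.H17G.ChG

/-!
# G Shift: translation of the base

Everything is immediate from the definitions.  `ss_shift`: `F ∈ Sec X Λ u ↔ F (· + c) ∈ Sec X Λ (u - c)`, so `f ↦ f (· + c)` maps `SS X Λ u` injectively to `SS X Λ (u - c)`.
`shiftForm`: `α.toFun (z + c) x v w`; `u x - c - z ∈ Λ ↔ u x - (z + c) ∈ Λ`.
`isNC_shift`: the same coordinates.
`image_finite`: let `δ` be the separation; every `b ∈ B` is congruent modulo `Γ` to an element of `B ∩ closedBall 0 R` (`Lat.cocompact` for `Γ`: `‖b - l‖ ≤ R`, and `b - l ∈ B`), and `B ∩ closedBall 0 R` is finite (a separated bounded set: an infinite subset of a compact set has an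
accumulation point, or use total boundedness).
`exists_delta`: `0 ∉ B`: if no point of `B` has norm `< δ₀ / 2` take `δ = δ₀ / 8`; otherwise there is only one such point `b`, `b ≠ 0`, take `δ = min (δ₀ / 8) (‖b‖ / 4)`.
-/

set_option autoImplicit false

open Topology Filter Metric

noncomputable section

namespace Pool.Agent.H17G

open Pool.Agent.H62.EF (MN pr Lat TorusMap Sec DU Charts SS)
open Pool.Agent.H62.EL (IsNC TForm Per VanZero Thin tc EData BadSet Gd)
open Pool.Agent.H36.BP (EN IsGermChart)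
open Pool.Agent.H14.PP (IsCone Chart Tan)

variable {N : ℕ} {X : Set (EN N)} {Λ Γ : AddSubgroup ℂ} {u : EN N → ℂ}

theorem torusMap_shift (hu : TorusMap X Λ u) (c : ℂ) : TorusMap X Λ (fun x => u x - c) := by
  refine ⟨fun x hx a ha => ?_, fun x hx => ?_⟩
  · have h := hu.smul x hx a ha
    have e : u (a • x) - c - (u x - c) = u (a • x) - u x := by ring
    simpa only [e] using h
  · obtain ⟨v, hv, h⟩ := hu.loc x hx
    refine ⟨fun y => v y - c, hv.sub analyticAt_const, ?_⟩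
    filter_upwards [h] with y hy hyX
    have e : u y - c - (v y - c) = u y - v y := by ring
    simpa only [e] using hy hyX

theorem ss_shift (c : ℂ) (h : (SS X Λ (fun x => u x - c)).Finite) : (SS X Λ u).Finite := by
  refine Set.Finite.of_finite_image (f := fun (f : ℂ → MN N) (z : ℂ) => f (z + c)) (h.subset ?_) ?_
  · rintro _ ⟨_, ⟨F, hF, rfl⟩, rfl⟩
    refine ⟨fun z => F (z + c), ⟨?_, fun z => hF.2.1 _, fun z => ?_⟩, rfl⟩
    · exact hF.1.comp (differentiable_id.add_const c)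
    · have h1 := hF.2.2 (z + c)
      have e : u (F (z + c)) - c - z = u (F (z + c)) - (z + c) := by ring
      simpa only [e] using h1
  · intro f _ g _ hfg
    funext z
    have h1 := congrFun hfg (z - c)
    simpa using h1

theorem isNC_shift {x : EN N} {b c : ℂ} (h : IsNC X Λ u x b) : IsNC X Λ (fun x => u x - c) x (b - c) := by
  obtain ⟨σ, τ, i, j, h1, h2, h3, h4⟩ := h
  refine ⟨σ, τ, i, j, h1, h2, h3, ?_⟩
  filter_upwards [h4] with p hp
  have e : u (σ p) - c - (b - c + p.1 ^ i * p.2 ^ j) = u (σ p) - (b + p.1 ^ i * p.2 ^ j) := by ring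
  simpa only [e] using hp

private theorem shift_mem {Λ : AddSubgroup ℂ} {a c z : ℂ} (h : a - c - z ∈ Λ) : a - (z + c) ∈ Λ := by
  have e : a - (z + c) = a - c - z := by ring
  rw [e]
  exact h

/-- the translated form -/
def shiftForm (α : TForm X Λ u) (c : ℂ) : TForm X Λ (fun x => u x - c) where
  toFun z x v w := α.toFun (z + c) x v w
  add_smul := by
    intro z x hx hz v w hv hw a b
    exact α.add_smul (z + c) x hx (shift_mem hz) v w hv hw a b
  det := by
    intro z x hx hz v w hv hw a b a' b'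
    exact α.det (z + c) x hx (shift_mem hz) v w hv hw a b a' b'
  scale := by
    intro z x hx hz v w hv hw a ha
    exact α.scale (z + c) x hx (shift_mem hz) v w hv hw a ha
  analytic := by
    intro φ υ p hφ hυ h
    exact α.analytic φ (fun y => υ y + c) p hφ (hυ.add analyticAt_const) (h.mono fun y hy => ⟨hy.1, shift_mem hy.2⟩)

theorem per_shift {α : TForm X Λ u} (h : Per α Γ) (c : ℂ) : Per (shiftForm α c) Γ := by
  intro z l hl x hx hz v w hv hw
  have h1 := h (z + c) l hl x hx (shift_mem hz) v w hv hw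
  have e : z + l + c = z + c + l := by ring
  change α.toFun (z + l + c) x v w = α.toFun (z + c) x v w
  rw [e]
  exact h1

theorem thin_shift {α : TForm X Λ u} (h : Thin α) (c : ℂ) : Thin (shiftForm α c) := by
  intro χ υ p hp hυ hu h0
  exact h χ (fun y => υ y + c) p hp (hυ.add analyticAt_const) (hu.mono fun y hy => shift_mem hy) h0

theorem vanZero_shift {α : TForm X Λ u} {c : ℂ} (h : ∀ x ∈ X, u x - c ∈ Λ → ∀ v w, Tan X x v → Tan X x w → α.toFun c x v w = 0) :
    VanZero (shiftForm α c) := by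
  intro x hx hxu v w hv hw
  have h1 := h x hx hxu v w hv hw
  change α.toFun (0 + c) x v w = 0
  rw [zero_add]
  exact h1

private theorem shift_finite {B : Set ℂ} {δ : ℝ} (hδ : 0 < δ) (hsep : ∀ b ∈ B, ∀ b' ∈ B, b ≠ b' → δ ≤ ‖b - b'‖) (R : ℝ) :
    (B ∩ closedBall 0 R).Finite := by
  have hK : TotallyBounded (closedBall (0 : ℂ) R) := (isCompact_closedBall 0 R).totallyBounded
  obtain ⟨t, ht, hcov⟩ := Metric.totallyBounded_iff.1 hK (δ / 2) (by positivity)
  have h1 : ∀ b ∈ B ∩ closedBall 0 R, ∃ y ∈ t, b ∈ ball y (δ / 2) := by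
    intro b hb
    obtain ⟨y, hy, hby⟩ := Set.mem_iUnion₂.1 (hcov hb.2)
    exact ⟨y, hy, hby⟩
  choose! g hg using h1
  refine Set.Finite.of_finite_image (f := g) (ht.subset ?_) ?_
  · rintro _ ⟨b, hb, rfl⟩
    exact (hg b hb).1
  · intro b hb b' hb' he
    by_contra hne
    have h2 := hsep b hb.1 b' hb'.1 hne
    have h3 : dist b (g b) < δ / 2 := (hg b hb).2
    have h4 : dist b' (g b') < δ / 2 := (hg b' hb').2
    rw [← he] at h4
    have h5 : dist b b' ≤ dist b (g b) + dist b' (g b) := dist_triangle_right _ _ _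
    rw [dist_eq_norm b b'] at h5
    linarith

theorem image_finite (hΓ : Lat Γ) {B : Set ℂ} (hinv : ∀ b ∈ B, ∀ l ∈ Γ, b + l ∈ B) {δ : ℝ} (hδ : 0 < δ)
    (hsep : ∀ b ∈ B, ∀ b' ∈ B, b ≠ b' → δ ≤ ‖b - b'‖) : ((fun b : ℂ => (b : ℂ ⧸ Γ)) '' B).Finite := by
  obtain ⟨R, hR, hcc⟩ := hΓ.cocompact
  refine ((shift_finite hδ hsep R).image (fun b : ℂ => (b : ℂ ⧸ Γ))).subset ?_
  rintro _ ⟨b, hb, rfl⟩
  obtain ⟨l, hl, hbl⟩ := hcc b
  refine ⟨b - l, ⟨?_, ?_⟩, ?_⟩
  · have h1 := hinv b hb (-l) (Γ.neg_mem hl)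
    rwa [← sub_eq_add_neg] at h1
  · rw [mem_closedBall, dist_zero_right]
    exact hbl
  · change ((b - l : ℂ) : ℂ ⧸ Γ) = (b : ℂ ⧸ Γ)
    rw [QuotientAddGroup.eq]
    have e : -(b - l) + b = l := by ring
    rw [e]
    exact hl

theorem exists_delta {B : Set ℂ} {δ₀ : ℝ} (hδ₀ : 0 < δ₀) (hinv : ∀ b ∈ B, ∀ l ∈ Λ, b + l ∈ B)
    (hsep : ∀ b ∈ B, ∀ b' ∈ B, b ≠ b' → δ₀ ≤ ‖b - b'‖) (h0 : (0 : ℂ) ∉ B) : ∃ δ : ℝ, BadSet B Λ δ ∧ ∀ b ∈ B, 4 * δ ≤ ‖b‖ := by
  by_cases hc : ∀ b ∈ B, δ₀ / 2 ≤ ‖b‖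
  · refine ⟨δ₀ / 8, ⟨by positivity, hinv, fun b hb b' hb' hne => ?_⟩, fun b hb => ?_⟩
    · have := hsep b hb b' hb' hne
      linarith
    · have := hc b hb
      linarith
  · push Not at hc
    obtain ⟨b₀, hb₀, hlt⟩ := hc
    have hb₀0 : b₀ ≠ 0 := fun h => h0 (h ▸ hb₀)
    have hpos : 0 < ‖b₀‖ := norm_pos_iff.2 hb₀0
    refine ⟨min (δ₀ / 8) (‖b₀‖ / 4), ⟨lt_min (by positivity) (by positivity), hinv, fun b hb b' hb' hne => ?_⟩, fun b hb => ?_⟩
    · have h1 := hsep b hb b' hb' hne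
      have h2 := min_le_left (δ₀ / 8) (‖b₀‖ / 4)
      linarith
    · by_cases hbb : b = b₀
      · rw [hbb]
        have h2 := min_le_right (δ₀ / 8) (‖b₀‖ / 4)
        linarith
      · have h1 := hsep b hb b₀ hb₀ hbb
        have h2 := min_le_left (δ₀ / 8) (‖b₀‖ / 4)
        have h3 := norm_sub_le b b₀
        linarith

end Pool.Agent.H17G
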