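import Pool.Agent.H17G.Bad
import Pool.Agent.H17G.Shift
import Pool.Agent.H62.EL.Core

/-!
# G CoreG: finiteness of the sections
-/

set_option autoImplicit false

open Topology Filter Metric MvPolynomial

noncomputable section

namespace Pool.Agent.H17G

open Pool.Agent.H17 (PN VanishesAt HolomorphicInto)
open Pool.Agent.H62.FC (Homog)
open Pool.Agent.H62.EF (MN pr Lat TorusMap Sec DU Charts SS)
open Pool.Agent.H62.EL (IsNC TForm Per VanZero Thin tc EData BadSet Gd)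
open Pool.Agent.H17BP (Surface)
open Pool.Agent.H17LG.Variety (FunField IsLogGeneralType)
open Pool.Agent.H13.SM (cone conTan)
open Pool.Agent.H36.BP (EN IsGermChart isCone_transport)
open Pool.Agent.H14.PP (IsCone Chart Tan)
open Pool.Agent.H17EF (projVar IsHolomorphicMap coneE uE LE GT charts torusMap)

variable {N : ℕ} {P : Ideal (MvPolynomial (Fin (N + 1)) ℂ)} {Λ Γ : AddSubgroup ℂ} {u : PN N → ℂ ⧸ Λ}

/-- **Main theorem**, for the cone. -/
theorem coreG_finite [P.IsPrime] {z : Fin 2 → FunField P} (hP : Homog P) (hz : IsTranscendenceBasis ℂ z)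
    (hsm : ∀ y : Fin (N + 1) → ℂ, y ≠ 0 → (∀ Q ∈ P, eval y Q = 0) → Module.finrank ℂ (conTan P y) ≤ 3) (hgt : GT P 2)
    (hΛ : Lat Λ) (hΓ : Lat Γ) (hle : Γ ≤ Λ) (hu : IsHolomorphicMap (projVar P) Λ u)
    (hnc : ∀ x ∈ projVar P, IsNCPoint (projVar P) Λ u x) (hform : HasForms (projVar P) Λ Γ u) :
    (SS (coneE P) Λ (uE Λ u)).Finite := by
  have hS : Surface (cone P) := Pool.Agent.H13.SM.surface_cone hP hz fun y hy => hsm y hy.1 hy.2
  obtain ⟨B, hinv, ⟨δ₀, hδ₀, hsep⟩, hfib⟩ := exists_bad hP hz hsm hgt hΛ hu hnc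
  -- a fibre which is not bad
  obtain ⟨c, hcform, hcB⟩ : ∃ c : ℂ ⧸ Γ, (∃ Ω, IsTwoForm (projVar P) Λ Γ u Ω ∧ IsNowhereZero (projVar P) Λ u Ω ∧
      ∀ z : ℂ, (z : ℂ ⧸ Γ) = c → VanishesOver (projVar P) Λ u Ω z) ∧ c ∉ (fun b : ℂ => (b : ℂ ⧸ Γ)) '' B := by
    have h1 := image_finite hΓ (fun b hb l hl => hinv b hb l (hle hl)) hδ₀ hsep
    obtain ⟨c, hc, hcB⟩ := hform.exists_notMem_finite h1
    exact ⟨c, hc, hcB⟩
  obtain ⟨Ω, hΩ, hnz, hvan⟩ := hcform
  obtain ⟨c₀, rfl⟩ := QuotientAddGroup.mk_surjective c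
  have hc₀ : c₀ ∉ B := fun h => hcB ⟨c₀, h, rfl⟩
  -- translation
  obtain ⟨δ, hbad, hδ⟩ := exists_delta (Λ := Λ) (B := {b | b + c₀ ∈ B}) hδ₀
    (fun b hb l hl => by
      show b + l + c₀ ∈ B
      rw [add_right_comm]
      exact hinv _ hb l hl)
    (fun b hb b' hb' hne => by
      have := hsep _ hb _ hb' fun h => hne (add_right_cancel h)
      rwa [add_sub_add_right_eq_sub] at this)
    (by
      show ¬ (0 + c₀ ∈ B)
      rwa [zero_add])
  have E : EData (coneE P) Λ (fun x => uE Λ u x - c₀) Γ {b | b + c₀ ∈ B} δ := by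
    refine ⟨isCone_transport (LE N) hS, charts hS, torusMap_shift (torusMap hP hu) c₀, hΛ, hΓ, hle, hbad, hδ, ?_, ?_⟩
    · intro F hF hFX hFu hne
      obtain ⟨b, hb, hb'⟩ := hfib F hF hFX (fun z w => by
        have := hFu z w
        rwa [sub_sub_sub_cancel_right] at this) hne
      refine ⟨b - c₀, ?_, ?_⟩
      · show b - c₀ + c₀ ∈ B
        rwa [sub_add_cancel]
      · rwa [sub_sub_sub_cancel_right]
    · intro b _ x hx hxb
      obtain ⟨b', hb', σ, τ, i, j, hi, hst, h0, hev⟩ := isNC_of hP hS hnc hx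
      have h1 : b + c₀ - b' ∈ Λ := by
        have := Λ.sub_mem hb' hxb
        convert this using 1
        ring
      refine ⟨σ, τ, i, j, hst, h0, by omega, ?_⟩
      filter_upwards [hev] with p hp
      have := Λ.sub_mem hp h1
      convert this using 1
      ring
  exact ss_shift c₀ (Pool.Agent.H62.EL.sec_finite E (per_shift (tform_per hP hΩ) c₀)
    (vanZero_shift (tform_van hP hΩ (hvan c₀ rfl))) (thin_shift (tform_thin hP hΩ hΛ hnz) c₀))

end Pool.Agent.H17G
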