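import Pool.Agent.H17G.ChG
import Pool.Agent.H62.EL.ChN
import Pool.Agent.H17EF.Count

/-!
# G FibForm: the fibres are algebraic

* `schwarz_pow`: if `g` is differentiable on `ball 0 R`, bounded by `M` there, and `analyticOrderAt g 0 ≥ m` then `‖g t‖ ≤ M * (‖t‖ / R) ^ m` on the ball: induction on `m`: `g t = t * h t` with `h = dslope g 0`, `‖h‖ ≤ M / R` on the ball by the maximum principle (Schwarz lemma).
  (Compare `Pool.Agent.H17EF.div_one`, `div_list` in `H17EF/Zeros.lean`.)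

* `cover_discs`: let `K = {x ∈ coneE P | ‖x‖ = 1, uE x - c ∈ Λ}`; it is compact (`coneE P` is closed in the complement of `0`, `isCone_transport`; the condition is closed by `TorusMap.loc`: if `x_n → x` with `uE (x_n) - c ∈ Λ` then `v (x_n) - c ∈ Λ` for large `n`, `v` a local lift at `x`, and `Λ` is
  closed because it is discrete).  Let `x ∈ K`.  By `isNC_of` there is `b` with `uE x - b ∈ Λ` and coordinates with `uE = b + s^i t^j`, `i ≥ 1`; since `uE x - c ∈ Λ` we may take `b = c` (change `b` by an element of `Λ`).  `EL.exists_nc_chart` (for `IsNC ... x c`) gives a chart `χ` centred at `x`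
  and `ρ, i, j` with `uE (χ.σ p) - (c + ρ s^i t^j) ∈ Λ` for `p ∈ ball 0 2` and `‖ρ s^i t^j‖ < η`, `η` = half of the number of `Lat.discrete`; so `uE (χ.σ p) - c ∈ Λ ↔ s^i t^j = 0`.  (`i + j > 0`.)  Discs: if `0 < i`: `t ↦ χ.σ (0, t)`; if `0 < j`: `t ↦ χ.σ (t, 0)`.  They are in the fibre
  over `c`, and every point `y` of the fibre in `V_x = {y ∈ χ.U | ‖χ.q y‖ < 1}` is a multiple of a point of one of the discs with parameter in `ball 0 1` (`χ.surj`).  `V_x` is a neighbourhood of `x`; finite subcover of `K`; a general point of the fibre is a multiple of a point of `K`.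
  (Number the discs by `Fin n`.)

* `fibre_form`: let `ψ_1, ..., ψ_n` be the discs (`cover_discs`), `c₁ ≤ ‖(LE N).symm (ψ_i t)‖ ≤ C₁` for `‖t‖ ≤ 3/2`, with `0 < c₁` (compactness, `ψ_i t ≠ 0`).  Choose `k ∈ ℕ` with `C₁ * (2/3)^k < c₁`.  By `H17EF.exists_form_of_conditions` for `K = n * k` there is `d ≥ 1` such that the `n * k * d` linear
  conditions `the first k d Taylor coefficients at 0 of t ↦ eval (LE.symm (ψ_i t)) Q vanish` (`iteratedDeriv` at `0`; linear in `Q`) have a solution `Q`, homogeneous of degree `d`, `Q ∉ P` (`hX` there: some `X_i ∉ P`, because the cone has a point: if all `X_i ∈ P` the statement is trivial: the cone is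
  empty, take `Q = 1`, `d = 0`).  Let `M = sup { ‖eval (LE.symm x) Q‖ / ‖LE.symm x‖^d : x in the fibre }`, attained (compactness of `K`, homogeneity) at `x*`, which is `a • ψ_i t*`, `‖t*‖ < 1`.  On `‖t‖ < 3/2`: `‖eval (ψ_i t) Q‖ ≤ M * C₁^d` (the disc is in the fibre), so by `schwarz_pow`
  `M * c₁^d ≤ M ‖ψ_i t*‖^d = ‖eval (ψ_i t*) Q‖ ≤ M * C₁^d * (2/3)^(k d)`; if `M > 0` this gives `c₁ ≤ C₁ (2/3)^k` (take `d`-th roots, `d ≥ 1`), a contradiction.  So `M = 0`.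
  (If the fibre is empty there is nothing to prove: `Q = 1`.)
-/

set_option autoImplicit false

open Topology Filter Metric MvPolynomial

noncomputable section

namespace Pool.Agent.H17G

open Pool.Agent.H17 (PN VanishesAt HolomorphicInto)
open Pool.Agent.H62.FC (Homog)
open Pool.Agent.H62.EF (MN pr Lat TorusMap Sec DU Charts)
open Pool.Agent.H17BP (Surface)
open Pool.Agent.H17LG.Variety (FunField)
open Pool.Agent.H13.SM (cone conTan)
open Pool.Agent.H36.BP (EN IsGermChart)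
open Pool.Agent.H14.PP (IsCone Chart Tan)
open Pool.Agent.H17EF (projVar IsHolomorphicMap coneE uE LE)

variable {N : ℕ} {P : Ideal (MvPolynomial (Fin (N + 1)) ℂ)} {Λ : AddSubgroup ℂ} {u : PN N → ℂ ⧸ Λ}

theorem schwarz_pow (m : ℕ) {g : ℂ → ℂ} {R M : ℝ} (hR : 0 < R) (hg : DifferentiableOn ℂ g (ball 0 R)) (hM : ∀ t ∈ ball (0 : ℂ) R, ‖g t‖ ≤ M)
    (hm : (m : ℕ∞) ≤ analyticOrderAt g 0) : ∀ t ∈ ball (0 : ℂ) R, ‖g t‖ ≤ M * (‖t‖ / R) ^ m := by
  induction m generalizing g M with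
  | zero =>
    intro t ht
    simpa using hM t ht
  | succ m ih =>
    have h0b : (0 : ℂ) ∈ ball (0 : ℂ) R := mem_ball_self hR
    have hgan : AnalyticAt ℂ g 0 := hg.analyticAt (isOpen_ball.mem_nhds h0b)
    have hg0 : g 0 = 0 := by
      by_contra hne
      have h1 : analyticOrderAt g 0 = 0 := analyticOrderAt_eq_zero.mpr (Or.inr hne)
      rw [h1] at hm
      simp at hm
    have hh : DifferentiableOn ℂ (dslope g 0) (ball 0 R) :=
      (Complex.differentiableOn_dslope (isOpen_ball.mem_nhds h0b)).2 hg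
    have hhan : AnalyticAt ℂ (dslope g 0) 0 := hh.analyticAt (isOpen_ball.mem_nhds h0b)
    have hmul : g = id * dslope g 0 := by
      funext t
      have h1 := sub_smul_dslope g 0 t
      rw [hg0, sub_zero, sub_zero, smul_eq_mul] at h1
      exact h1.symm
    have hord : ((m : ℕ) : ℕ∞) ≤ analyticOrderAt (dslope g 0) 0 := by
      have h1 : analyticOrderAt g 0 = 1 + analyticOrderAt (dslope g 0) 0 := by
        conv_lhs => rw [hmul]
        rw [analyticOrderAt_mul analyticAt_id hhan, analyticOrderAt_id]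
      rw [h1] at hm
      push_cast at hm
      rw [add_comm] at hm
      exact (ENat.add_le_add_iff_left (by simp)).1 hm
    have hbd : ∀ t ∈ ball (0 : ℂ) R, ‖dslope g 0 t‖ ≤ M / R := by
      intro t ht
      refine Complex.norm_dslope_le_div_of_mapsTo_ball hg ?_ ht
      intro t' ht'
      rw [hg0, mem_closedBall_zero_iff]
      exact hM t' ht'
    intro t ht
    have h2 := ih hh hbd hord t ht
    have h3 : g t = t * dslope g 0 t := congrFun hmul t
    rw [h3, norm_mul]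
    calc ‖t‖ * ‖dslope g 0 t‖ ≤ ‖t‖ * (M / R * (‖t‖ / R) ^ m) := mul_le_mul_of_nonneg_left h2 (norm_nonneg t)
      _ = M * (‖t‖ / R) ^ (m + 1) := by
        rw [pow_succ]
        ring

/-- the part of a fibre on the unit sphere is compact -/
private theorem FibForm_compact {X : Set (EN N)} {v : EN N → ℂ} (hX : IsCone X) (htor : TorusMap X Λ v) (hΛ : Lat Λ) (c : ℂ) :
    IsCompact {x : EN N | x ∈ X ∧ ‖x‖ = 1 ∧ v x - c ∈ Λ} := by
  have h1 : IsCompact ((insert 0 (X)) ∩ sphere (0 : EN N) 1) := (isCompact_sphere (0 : EN N) 1).inter_left hX.closed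
  refine h1.of_isClosed_subset ?_ ?_
  · rw [← closure_subset_iff_isClosed]
    intro x hx
    have hx1 : x ∈ insert (0 : EN N) (X) ∩ sphere (0 : EN N) 1 := by
      refine closure_minimal ?_ h1.isClosed hx
      rintro y ⟨hy1, hy2, -⟩
      exact ⟨Set.mem_insert_of_mem _ hy1, mem_sphere_zero_iff_norm.mpr hy2⟩
    have hn : ‖x‖ = 1 := mem_sphere_zero_iff_norm.mp hx1.2
    have hxX : x ∈ X := by
      rcases hx1.1 with h0 | h0
      · rw [h0, norm_zero] at hn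
        exact absurd hn (by norm_num)
      · exact h0
    refine ⟨hxX, hn, ?_⟩
    obtain ⟨w, hw, hv'⟩ := htor.loc x hxX
    have h2 : w x - c ∈ Λ := by
      refine hΛ.mem_of_close fun ε hε => ?_
      have h3 : ∀ᶠ y in 𝓝 x, ‖w y - w x‖ < ε := by
        have h4 := hw.continuousAt.tendsto
        rw [tendsto_iff_norm_sub_tendsto_zero] at h4
        exact h4.eventually (gt_mem_nhds hε)
      obtain ⟨y, ⟨hy1, hy2⟩, hy3, -, hy4⟩ := mem_closure_iff_nhds.mp hx _ (h3.and hv')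
      refine ⟨w y - c, ?_, ?_⟩
      · have h5 := hy2 hy3
        have h6 : w y - c = (v y - c) - (v y - w y) := by ring
        rw [h6]
        exact Λ.sub_mem hy4 h5
      · have h7 : w x - c - (w y - c) = -(w y - w x) := by ring
        rw [h7, norm_neg]
        exact hy1
    have h8 := hv'.self_of_nhds hxX
    have h9 : v x - c = (v x - w x) + (w x - c) := by ring
    rw [h9]
    exact Λ.add_mem h8 h2
  · rintro y ⟨hy1, hy2, -⟩
    exact ⟨Set.mem_insert_of_mem _ hy1, mem_sphere_zero_iff_norm.mpr hy2⟩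

theorem cover_discs (hP : Homog P) (hS : Surface (cone P)) (hΛ : Lat Λ) (hu : IsHolomorphicMap (projVar P) Λ u)
    (hnc : ∀ x ∈ projVar P, IsNCPoint (projVar P) Λ u x) (c : ℂ) : ∃ (n : ℕ) (ψ : Fin n → ℂ → EN N),
      (∀ i, ∀ t ∈ ball (0 : ℂ) 2, AnalyticAt ℂ (ψ i) t ∧ ψ i t ∈ coneE P ∧ uE Λ u (ψ i t) - c ∈ Λ) ∧
      ∀ x ∈ coneE P, uE Λ u x - c ∈ Λ → ∃ i, ∃ t ∈ ball (0 : ℂ) 1, ∃ a : ℂ, a ≠ 0 ∧ x = a • ψ i t := by
  classical
  have hX : IsCone (coneE P) := Pool.Agent.H36.BP.isCone_transport (LE N) hS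
  have htor : TorusMap (coneE P) Λ (uE Λ u) := Pool.Agent.H17EF.torusMap hP hu
  have hne : ∀ y ∈ coneE P, y ≠ 0 := fun y hy h0 => hX.zero_notMem (h0 ▸ hy)
  -- the multiples of a point of the fibre
  have hfs : ∀ x ∈ coneE P, ∀ a : ℂ, a ≠ 0 → (uE Λ u (a • x) - c ∈ Λ ↔ uE Λ u x - c ∈ Λ) := by
    intro x hx a ha
    have h1 := htor.smul x hx a ha
    constructor
    · intro h2
      have h3 : uE Λ u x - c = (uE Λ u (a • x) - c) - (uE Λ u (a • x) - uE Λ u x) := by ring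
      rw [h3]
      exact Λ.sub_mem h2 h1
    · intro h2
      have h3 : uE Λ u (a • x) - c = (uE Λ u (a • x) - uE Λ u x) + (uE Λ u x - c) := by ring
      rw [h3]
      exact Λ.add_mem h1 h2
  obtain ⟨δ, hδ, hΛδ⟩ := hΛ.discrete
  have hK : IsCompact {x : EN N | x ∈ coneE P ∧ ‖x‖ = 1 ∧ uE Λ u x - c ∈ Λ} := FibForm_compact hX htor hΛ c
  -- finitely many discs
  obtain ⟨L, hL1, hL2⟩ : ∃ L : List (ℂ → EN N), (∀ ψ ∈ L, ∀ t ∈ ball (0 : ℂ) 2, AnalyticAt ℂ ψ t ∧ ψ t ∈ coneE P ∧ uE Λ u (ψ t) - c ∈ Λ) ∧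
      ∀ x ∈ {x : EN N | x ∈ coneE P ∧ ‖x‖ = 1 ∧ uE Λ u x - c ∈ Λ}, x ∈ coneE P → uE Λ u x - c ∈ Λ → ∃ ψ ∈ L, ∃ t ∈ ball (0 : ℂ) 1, ∃ a : ℂ, a ≠ 0 ∧ x = a • ψ t := by
    refine hK.induction_on (p := fun s => ∃ L : List (ℂ → EN N), (∀ ψ ∈ L, ∀ t ∈ ball (0 : ℂ) 2, AnalyticAt ℂ ψ t ∧ ψ t ∈ coneE P ∧
      uE Λ u (ψ t) - c ∈ Λ) ∧ ∀ x ∈ s, x ∈ coneE P → uE Λ u x - c ∈ Λ → ∃ ψ ∈ L, ∃ t ∈ ball (0 : ℂ) 1, ∃ a : ℂ, a ≠ 0 ∧ x = a • ψ t) ?_ ?_ ?_ ?_
    · exact ⟨[], by simp, by simp⟩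
    · rintro s t hst ⟨L, h1, h2⟩
      exact ⟨L, h1, fun x hx => h2 x (hst hx)⟩
    · rintro s t ⟨L, h1, h2⟩ ⟨L', h1', h2'⟩
      refine ⟨L ++ L', fun ψ hψ => ?_, fun x hx hxX hxc => ?_⟩
      · rcases List.mem_append.mp hψ with h | h
        · exact h1 ψ h
        · exact h1' ψ h
      · rcases hx with h | h
        · obtain ⟨ψ, hψ, h3⟩ := h2 x h hxX hxc
          exact ⟨ψ, List.mem_append.mpr (Or.inl hψ), h3⟩
        · obtain ⟨ψ, hψ, h3⟩ := h2' x h hxX hxc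
          exact ⟨ψ, List.mem_append.mpr (Or.inr hψ), h3⟩
    · rintro x ⟨hxX, -, hxc⟩
      obtain ⟨b, hb, σ, τ, i, j, hi, hg, hσ0, hσ⟩ := isNC_of hP hS hnc hxX
      have hNC : Pool.Agent.H62.EL.IsNC (coneE P) Λ (uE Λ u) x c := by
        refine ⟨σ, τ, i, j, hg, hσ0, by omega, ?_⟩
        filter_upwards [hσ] with p hp
        have h1 : uE Λ u (σ p) - (c + p.1 ^ i * p.2 ^ j) = (uE Λ u (σ p) - (b + p.1 ^ i * p.2 ^ j)) - ((uE Λ u x - b) - (uE Λ u x - c)) := by ring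
        rw [h1]
        exact Λ.sub_mem hp (Λ.sub_mem hb hxc)
      obtain ⟨χ, ρ, i', j', hxU, hχ0, hmon, hη⟩ := Pool.Agent.H62.EL.exists_nc_chart hX htor hNC hδ
      have key : ∀ p ∈ ball (0 : ℂ × ℂ) 2, (uE Λ u (χ.σ p) - c ∈ Λ ↔ p.1 ^ i' * p.2 ^ j' = 0) := by
        intro p hp
        have h1 := hmon.lift p hp
        have h2 := (hη p hp).2
        have hρ : (ρ : ℂ) ≠ 0 := by exact_mod_cast hmon.pos.ne'
        constructor
        · intro h3
          have h4 : Pool.Agent.H62.EL.mo c ρ i' j' p - c ∈ Λ := by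
            have h5 : Pool.Agent.H62.EL.mo c ρ i' j' p - c = (uE Λ u (χ.σ p) - c) - (uE Λ u (χ.σ p) - Pool.Agent.H62.EL.mo c ρ i' j' p) := by ring
            rw [h5]
            exact Λ.sub_mem h3 h1
          have h6 := hΛδ _ h4 h2
          have h7 : (ρ : ℂ) * (p.1 ^ i' * p.2 ^ j') = 0 := by
            have h8 : Pool.Agent.H62.EL.mo c ρ i' j' p - c = (ρ : ℂ) * (p.1 ^ i' * p.2 ^ j') := by
              unfold Pool.Agent.H62.EL.mo
              ring
            rw [← h8]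
            exact h6
          exact (mul_eq_zero.mp h7).resolve_left hρ
        · intro h3
          have h4 : Pool.Agent.H62.EL.mo c ρ i' j' p = c := by
            unfold Pool.Agent.H62.EL.mo
            rw [h3, mul_zero, add_zero]
          rw [h4] at h1
          exact h1
      have hn1 : ∀ t : ℂ, t ∈ ball (0 : ℂ) 2 → ((0 : ℂ), t) ∈ ball (0 : ℂ × ℂ) 2 := by
        intro t ht
        rw [mem_ball_zero_iff, Prod.norm_mk, norm_zero]
        exact max_lt two_pos (mem_ball_zero_iff.mp ht)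
      have hn2 : ∀ t : ℂ, t ∈ ball (0 : ℂ) 2 → (t, (0 : ℂ)) ∈ ball (0 : ℂ × ℂ) 2 := by
        intro t ht
        rw [mem_ball_zero_iff, Prod.norm_mk, norm_zero]
        exact max_lt (mem_ball_zero_iff.mp ht) two_pos
      refine ⟨{y | y ∈ χ.U ∧ ‖χ.q y‖ < 1}, ?_, (if 0 < i' then [fun t => χ.σ (0, t)] else []) ++ (if 0 < j' then [fun t => χ.σ (t, 0)] else []),
        ?_, ?_⟩
      · refine mem_nhdsWithin_of_mem_nhds ?_
        have h1 : ∀ᶠ y in 𝓝 x, y ∈ χ.U := χ.isOpen_U.mem_nhds hxU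
        have h2 : ∀ᶠ y in 𝓝 x, ‖χ.q y‖ < 1 := by
          have h3 := (χ.q_an x hxU).continuousAt.norm.tendsto
          rw [hχ0, norm_zero] at h3
          exact h3.eventually (gt_mem_nhds one_pos)
        exact h1.and h2
      · intro ψ hψ
        rcases List.mem_append.mp hψ with h | h
        · by_cases hi' : 0 < i'
          · rw [if_pos hi', List.mem_singleton] at h
            subst h
            intro t ht
            have hm := hn1 t ht
            refine ⟨?_, (χ.σ_mem _ hm).1, (key _ hm).2 ?_⟩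
            · exact (χ.σ_an _ hm).fun_comp_of_eq (analyticAt_const.prod analyticAt_id) rfl
            · simp [hi'.ne']
          · rw [if_neg hi'] at h
            simp at h
        · by_cases hj' : 0 < j'
          · rw [if_pos hj', List.mem_singleton] at h
            subst h
            intro t ht
            have hm := hn2 t ht
            refine ⟨?_, (χ.σ_mem _ hm).1, (key _ hm).2 ?_⟩
            · exact (χ.σ_an _ hm).fun_comp_of_eq (analyticAt_id.prod analyticAt_const) rfl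
            · simp [hj'.ne']
          · rw [if_neg hj'] at h
            simp at h
      · rintro y ⟨hyU, hyq⟩ hyX hyc
        obtain ⟨hq2, a, ha, hay⟩ := χ.surj y hyX hyU
        have h1 : uE Λ u (χ.σ (χ.q y)) - c ∈ Λ := by
          rw [← hfs _ (χ.σ_mem _ hq2).1 a ha, ← hay]
          exact hyc
        have h2 := (key _ hq2).1 h1
        have hb1 : ‖(χ.q y).1‖ < 1 := lt_of_le_of_lt (norm_fst_le _) hyq
        have hb2 : ‖(χ.q y).2‖ < 1 := lt_of_le_of_lt (norm_snd_le _) hyq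
        rcases mul_eq_zero.mp h2 with h3 | h3
        · have h4 : (χ.q y).1 = 0 := eq_zero_of_pow_eq_zero h3
          have h5 : 0 < i' := by
            rcases Nat.eq_zero_or_pos i' with h6 | h6
            · rw [h6, pow_zero] at h3
              exact absurd h3 one_ne_zero
            · exact h6
          refine ⟨fun t => χ.σ (0, t), List.mem_append.mpr (Or.inl (by rw [if_pos h5]; exact List.mem_singleton_self _)),
            (χ.q y).2, mem_ball_zero_iff.mpr hb2, a, ha, ?_⟩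
          have h6 : ((0 : ℂ), (χ.q y).2) = χ.q y := Prod.ext h4.symm rfl
          show y = a • χ.σ (0, (χ.q y).2)
          rw [h6]
          exact hay
        · have h4 : (χ.q y).2 = 0 := eq_zero_of_pow_eq_zero h3
          have h5 : 0 < j' := by
            rcases Nat.eq_zero_or_pos j' with h6 | h6
            · rw [h6, pow_zero] at h3
              exact absurd h3 one_ne_zero
            · exact h6
          refine ⟨fun t => χ.σ (t, 0), List.mem_append.mpr (Or.inr (by rw [if_pos h5]; exact List.mem_singleton_self _)),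
            (χ.q y).1, mem_ball_zero_iff.mpr hb1, a, ha, ?_⟩
          have h6 : ((χ.q y).1, (0 : ℂ)) = χ.q y := Prod.ext rfl h4.symm
          show y = a • χ.σ ((χ.q y).1, 0)
          rw [h6]
          exact hay
  refine ⟨L.length, fun i => L.get i, fun i => hL1 _ (List.get_mem _ _), fun x hxX hxc => ?_⟩
  have hx0 : ‖x‖ ≠ 0 := norm_ne_zero_iff.mpr (hne x hxX)
  have hr0 : ((‖x‖⁻¹ : ℝ) : ℂ) ≠ 0 := by exact_mod_cast inv_ne_zero hx0
  have hyX : ((‖x‖⁻¹ : ℝ) : ℂ) • x ∈ coneE P := hX.smul_mem x hxX _ hr0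
  have hyc : uE Λ u (((‖x‖⁻¹ : ℝ) : ℂ) • x) - c ∈ Λ := (hfs x hxX _ hr0).2 hxc
  have hyn : ‖((‖x‖⁻¹ : ℝ) : ℂ) • x‖ = 1 := by
    rw [norm_smul, Complex.norm_real, norm_inv, norm_norm]
    exact inv_mul_cancel₀ hx0
  obtain ⟨ψ, hψ, t, ht, a, ha, hat⟩ := hL2 _ ⟨hyX, hyn, hyc⟩ hyX hyc
  obtain ⟨k, hk⟩ := List.mem_iff_get.mp hψ
  refine ⟨k, t, ht, ((‖x‖⁻¹ : ℝ) : ℂ)⁻¹ * a, mul_ne_zero (inv_ne_zero hr0) ha, ?_⟩
  change x = (((‖x‖⁻¹ : ℝ) : ℂ)⁻¹ * a) • L.get k t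
  rw [hk, mul_smul, ← hat, smul_smul, inv_mul_cancel₀ hr0, one_smul]

private theorem FibForm_smul {d : ℕ} {Q : MvPolynomial (Fin (N + 1)) ℂ} (hQ : Q.IsHomogeneous d) (c : ℂ)
    (x : Fin (N + 1) → ℂ) : eval (c • x) Q = c ^ d * eval x Q := by
  rw [eval_eq', eval_eq', Finset.mul_sum]
  refine Finset.sum_congr rfl fun m hm => ?_
  have h1 : ∏ i, (c • x) i ^ m i = c ^ d * ∏ i, x i ^ m i := by
    simp only [Pi.smul_apply, smul_eq_mul, mul_pow, Finset.prod_mul_distrib]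
    rw [Finset.prod_pow_eq_pow_sum]
    have h2 := hQ (mem_support_iff.1 hm)
    rw [Finsupp.weight_apply, Finsupp.sum_fintype _ _ (by simp)] at h2
    simp only [Pi.one_apply, smul_eq_mul, mul_one] at h2
    rw [h2]
  rw [h1]
  ring

private theorem FibForm_an {ψ : ℂ → EN N} {t : ℂ} (h : AnalyticAt ℂ ψ t) (Q : MvPolynomial (Fin (N + 1)) ℂ) :
    AnalyticAt ℂ (fun t => eval ((LE N).symm (ψ t)) Q) t := by
  have h1 : AnalyticAt ℂ (fun x : Fin (N + 1) → ℂ => eval x Q) ((LE N).symm (ψ t)) := AnalyticOnNhd.eval_mvPolynomial Q _ trivial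
  have h2 : AnalyticAt ℂ (fun t => (LE N).symm (ψ t)) t :=
    AnalyticAt.fun_comp (g := fun y : EN N => (LE N).symm y) (((LE N).symm : EN N →L[ℂ] (Fin (N + 1) → ℂ)).analyticAt (ψ t)) h
  exact AnalyticAt.fun_comp (g := fun x : Fin (N + 1) → ℂ => eval x Q) (f := fun t => (LE N).symm (ψ t)) h1 h2

/-- the Taylor coefficients of a form along a disc -/
private noncomputable def FibForm_ev {ψ : ℂ → EN N} (h : AnalyticAt ℂ ψ 0) (l : ℕ) : MvPolynomial (Fin (N + 1)) ℂ →ₗ[ℂ] ℂ where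
  toFun Q := iteratedDeriv l (fun t => eval ((LE N).symm (ψ t)) Q) 0
  map_add' Q R := by
    have h1 : (fun t => eval ((LE N).symm (ψ t)) (Q + R)) = (fun t => eval ((LE N).symm (ψ t)) Q) + fun t => eval ((LE N).symm (ψ t)) R := by
      funext t
      simp
    rw [h1]
    exact iteratedDeriv_add (FibForm_an h Q).contDiffAt (FibForm_an h R).contDiffAt
  map_smul' a Q := by
    have h1 : (fun t => eval ((LE N).symm (ψ t)) (a • Q)) = a • fun t => eval ((LE N).symm (ψ t)) Q := by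
      funext t
      simp
    rw [h1]
    exact iteratedDeriv_const_smul (FibForm_an h Q).contDiffAt a

/-- uniform bounds for finitely many discs -/
private theorem FibForm_bd {n : ℕ} {ψ : Fin n → ℂ → EN N} (hψ : ∀ i, ∀ t ∈ ball (0 : ℂ) 2, AnalyticAt ℂ (ψ i) t ∧ ψ i t ≠ 0) :
    ∃ c₁ C₁ : ℝ, 0 < c₁ ∧ 0 < C₁ ∧ ∀ i, ∀ t ∈ closedBall (0 : ℂ) (3 / 2), c₁ ≤ ‖ψ i t‖ ∧ ‖ψ i t‖ ≤ C₁ := by
  have hsub : closedBall (0 : ℂ) (3 / 2) ⊆ ball 0 2 := closedBall_subset_ball (by norm_num)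
  have h1 : ∀ i, ∃ a b : ℝ, 0 < a ∧ 0 ≤ b ∧ ∀ t ∈ closedBall (0 : ℂ) (3 / 2), a ≤ ‖ψ i t‖ ∧ ‖ψ i t‖ ≤ b := by
    intro i
    have hc : ContinuousOn (fun t => ‖ψ i t‖) (closedBall (0 : ℂ) (3 / 2)) := fun t ht =>
      ((hψ i t (hsub ht)).1.continuousAt.norm).continuousWithinAt
    have hne : (closedBall (0 : ℂ) (3 / 2)).Nonempty := ⟨0, mem_closedBall_self (by norm_num)⟩
    obtain ⟨t₁, ht₁, hm₁⟩ := (isCompact_closedBall (0 : ℂ) (3 / 2)).exists_isMinOn hne hc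
    obtain ⟨t₂, ht₂, hm₂⟩ := (isCompact_closedBall (0 : ℂ) (3 / 2)).exists_isMaxOn hne hc
    exact ⟨‖ψ i t₁‖, ‖ψ i t₂‖, norm_pos_iff.mpr (hψ i t₁ (hsub ht₁)).2, norm_nonneg _, fun t ht => ⟨hm₁ ht, hm₂ ht⟩⟩
  choose a b ha hb hab using h1
  obtain ⟨c₁, hc₁, hc₁'⟩ : ∃ c₁ : ℝ, 0 < c₁ ∧ ∀ i, c₁ ≤ a i := by
    rcases isEmpty_or_nonempty (Fin n) with he | he
    · exact ⟨1, one_pos, fun i => he.elim i⟩
    · obtain ⟨i₀, hi₀⟩ := Finite.exists_min a
      exact ⟨a i₀, ha i₀, hi₀⟩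
  refine ⟨c₁, ∑ i, b i + 1, hc₁, ?_, fun i t ht => ⟨(hc₁' i).trans (hab i t ht).1, (hab i t ht).2.trans ?_⟩⟩
  · have : 0 ≤ ∑ i, b i := Finset.sum_nonneg fun i _ => hb i
    linarith
  · have : b i ≤ ∑ i, b i := Finset.single_le_sum (f := b) (fun i _ => hb i) (Finset.mem_univ i)
    linarith

/-- every fibre lies in a hypersurface which does not contain the surface -/
theorem fibre_form [P.IsPrime] {z : Fin 2 → FunField P} (hP : Homog P) (hz : IsTranscendenceBasis ℂ z) (hS : Surface (cone P)) (hΛ : Lat Λ)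
    (hu : IsHolomorphicMap (projVar P) Λ u) (hnc : ∀ x ∈ projVar P, IsNCPoint (projVar P) Λ u x) (c : ℂ) :
    ∃ (Q : MvPolynomial (Fin (N + 1)) ℂ) (d : ℕ), Q.IsHomogeneous d ∧ Q ∉ P ∧ ∀ x ∈ projVar P, u x = (c : ℂ ⧸ Λ) → VanishesAt Q x := by
  classical
  have hX : IsCone (coneE P) := Pool.Agent.H36.BP.isCone_transport (LE N) hS
  have htor : TorusMap (coneE P) Λ (uE Λ u) := Pool.Agent.H17EF.torusMap hP hu
  have hne : ∀ y ∈ coneE P, y ≠ 0 := fun y hy h0 => hX.zero_notMem (h0 ▸ hy)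
  -- the case of the empty cone
  by_cases hXi : ∃ i, (X i : MvPolynomial (Fin (N + 1)) ℂ) ∉ P
  swap
  · push Not at hXi
    refine ⟨1, 0, isHomogeneous_one _ _, fun h1 => (Ideal.IsPrime.ne_top (inferInstance : P.IsPrime)) ((Ideal.eq_top_iff_one P).2 h1), ?_⟩
    intro x hx _
    exfalso
    apply x.rep_nonzero
    funext i
    have h1 := hx (X i) (hXi i) 1 (isHomogeneous_X ℂ i)
    unfold VanishesAt at h1
    simpa using h1
  obtain ⟨n, ψ, hψ, hcov⟩ := cover_discs hP hS hΛ hu hnc c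
  -- the norms of the points of the discs
  obtain ⟨c₁, C₁, hc₁, hC₁, hbd⟩ := FibForm_bd (ψ := ψ) fun i t ht => ⟨(hψ i t ht).1, hne _ (hψ i t ht).2.1⟩
  obtain ⟨k, hk⟩ : ∃ k : ℕ, C₁ * (2 / 3 : ℝ) ^ k < c₁ := by
    have h1 : Tendsto (fun k : ℕ => C₁ * (2 / 3 : ℝ) ^ k) atTop (𝓝 (C₁ * 0)) :=
      (tendsto_pow_atTop_nhds_zero_of_lt_one (by norm_num) (by norm_num)).const_mul C₁
    rw [mul_zero] at h1
    exact (h1.eventually (gt_mem_nhds hc₁)).exists
  obtain ⟨d, hd, hL⟩ := Pool.Agent.H17EF.exists_form_of_conditions hz hXi (n * k)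
  have hψ0 : ∀ i, AnalyticAt ℂ (ψ i) 0 := fun i => (hψ i 0 (mem_ball_self two_pos)).1
  let e : Fin (n * k * d) ≃ Fin n × Fin (k * d) := (finCongr (by ring)).trans finProdFinEquiv.symm
  obtain ⟨Q, hQh, hQP, hQL⟩ := hL (LinearMap.pi fun a => FibForm_ev (hψ0 (e a).1) ((e a).2 : ℕ))
  have hcoef : ∀ i, ∀ l < k * d, iteratedDeriv l (fun t => eval ((LE N).symm (ψ i t)) Q) 0 = 0 := by
    intro i l hl
    have h1 := congrFun hQL (e.symm (i, ⟨l, hl⟩))
    rw [LinearMap.pi_apply] at h1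
    have h2 : FibForm_ev (hψ0 (e (e.symm (i, ⟨l, hl⟩))).1) ((e (e.symm (i, ⟨l, hl⟩))).2 : ℕ) Q =
        iteratedDeriv ((e (e.symm (i, ⟨l, hl⟩))).2 : ℕ) (fun t => eval ((LE N).symm (ψ (e (e.symm (i, ⟨l, hl⟩))).1 t)) Q) 0 := rfl
    rw [h2, Equiv.apply_symm_apply] at h1
    exact h1
  have hord : ∀ i, ((k * d : ℕ) : ℕ∞) ≤ analyticOrderAt (fun t => eval ((LE N).symm (ψ i t)) Q) 0 := fun i =>
    (natCast_le_analyticOrderAt_iff_iteratedDeriv_eq_zero (FibForm_an (hψ0 i) Q)).2 (hcoef i)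
  have hhom : ∀ (a : ℂ) (x : EN N), ‖eval ((LE N).symm (a • x)) Q‖ = ‖a‖ ^ d * ‖eval ((LE N).symm x) Q‖ := by
    intro a x
    rw [map_smul, FibForm_smul hQh, norm_mul, norm_pow]
  have hunit : ∀ x ∈ coneE P, uE Λ u x - c ∈ Λ → ∃ y ∈ {x : EN N | x ∈ coneE P ∧ ‖x‖ = 1 ∧ uE Λ u x - c ∈ Λ}, x = ((‖x‖ : ℝ) : ℂ) • y := by
    intro x hxX hxc
    have hx0 : ‖x‖ ≠ 0 := norm_ne_zero_iff.mpr (hne x hxX)
    have hr0 : ((‖x‖⁻¹ : ℝ) : ℂ) ≠ 0 := by exact_mod_cast inv_ne_zero hx0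
    refine ⟨((‖x‖⁻¹ : ℝ) : ℂ) • x, ⟨hX.smul_mem x hxX _ hr0, ?_, ?_⟩, ?_⟩
    · rw [norm_smul, Complex.norm_real, norm_inv, norm_norm]
      exact inv_mul_cancel₀ hx0
    · have h1 := htor.smul x hxX _ hr0
      have h3 : uE Λ u (((‖x‖⁻¹ : ℝ) : ℂ) • x) - c = (uE Λ u (((‖x‖⁻¹ : ℝ) : ℂ) • x) - uE Λ u x) + (uE Λ u x - c) := by ring
      rw [h3]
      exact Λ.add_mem h1 hxc
    · rw [smul_smul, ← Complex.ofReal_mul, mul_inv_cancel₀ hx0, Complex.ofReal_one, one_smul]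
  have hK := FibForm_compact hX htor hΛ c
  have hKQ : ∀ x ∈ {x : EN N | x ∈ coneE P ∧ ‖x‖ = 1 ∧ uE Λ u x - c ∈ Λ}, eval ((LE N).symm x) Q = 0 := by
    rcases Set.eq_empty_or_nonempty {x : EN N | x ∈ coneE P ∧ ‖x‖ = 1 ∧ uE Λ u x - c ∈ Λ} with hemp | hnon
    · intro x hx
      rw [hemp] at hx
      exact absurd hx (Set.notMem_empty x)
    have hcont : Continuous fun x : EN N => ‖eval ((LE N).symm x) Q‖ := by
      have h1 : Continuous fun x : Fin (N + 1) → ℂ => eval x Q := MvPolynomial.continuous_eval Q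
      exact (h1.comp (LE N).symm.continuous).norm
    obtain ⟨xs, hxs, hmax⟩ := hK.exists_isMaxOn hnon hcont.continuousOn
    obtain ⟨M, hM⟩ : ∃ M, M = ‖eval ((LE N).symm xs) Q‖ := ⟨_, rfl⟩
    have hM0 : 0 ≤ M := by rw [hM]; exact norm_nonneg _
    have hall : ∀ x ∈ coneE P, uE Λ u x - c ∈ Λ → ‖eval ((LE N).symm x) Q‖ ≤ M * ‖x‖ ^ d := by
      intro x hxX hxc
      obtain ⟨y, hy, hxy⟩ := hunit x hxX hxc
      have h1 : ‖eval ((LE N).symm y) Q‖ ≤ M := by rw [hM]; exact hmax hy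
      calc ‖eval ((LE N).symm x) Q‖ = ‖eval ((LE N).symm (((‖x‖ : ℝ) : ℂ) • y)) Q‖ := by rw [← hxy]
        _ = ‖x‖ ^ d * ‖eval ((LE N).symm y) Q‖ := by rw [hhom, Complex.norm_real, norm_norm]
        _ ≤ ‖x‖ ^ d * M := mul_le_mul_of_nonneg_left h1 (by positivity)
        _ = M * ‖x‖ ^ d := mul_comm _ _
    have hM1 : M = 0 := by
      by_contra hMne
      have hMpos : 0 < M := lt_of_le_of_ne hM0 (Ne.symm hMne)
      obtain ⟨hxs1, hxs2, hxs3⟩ := hxs
      obtain ⟨i, t, ht, a, ha, hat⟩ := hcov xs hxs1 hxs3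
      have ht1 : ‖t‖ < 1 := mem_ball_zero_iff.mp ht
      have htc : t ∈ closedBall (0 : ℂ) (3 / 2) := mem_closedBall_zero_iff.mpr (by linarith)
      have h1 : M = ‖a‖ ^ d * ‖eval ((LE N).symm (ψ i t)) Q‖ := by rw [hM, hat, hhom]
      have h2 : ‖a‖ * ‖ψ i t‖ = 1 := by rw [← norm_smul, ← hat, hxs2]
      have h3 : ‖eval ((LE N).symm (ψ i t)) Q‖ = M * ‖ψ i t‖ ^ d := by
        have h4 : (‖a‖ * ‖ψ i t‖) ^ d = 1 := by rw [h2, one_pow]
        rw [h1]
        calc ‖eval ((LE N).symm (ψ i t)) Q‖ = (‖a‖ * ‖ψ i t‖) ^ d * ‖eval ((LE N).symm (ψ i t)) Q‖ := by rw [h4, one_mul]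
          _ = ‖a‖ ^ d * ‖eval ((LE N).symm (ψ i t)) Q‖ * ‖ψ i t‖ ^ d := by rw [mul_pow]; ring
      have h5 := schwarz_pow (k * d) (g := fun t => eval ((LE N).symm (ψ i t)) Q) (R := 3 / 2) (M := M * C₁ ^ d) (by norm_num)
        (fun s hs => ((FibForm_an (hψ i s (ball_subset_ball (by norm_num) hs)).1 Q).differentiableAt).differentiableWithinAt)
        (fun s hs => by
          obtain ⟨-, h6, h7⟩ := hψ i s (ball_subset_ball (by norm_num) hs)
          refine (hall _ h6 h7).trans (mul_le_mul_of_nonneg_left ?_ hM0)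
          exact pow_le_pow_left₀ (norm_nonneg _) (hbd i s (ball_subset_closedBall hs)).2 d) (hord i) t
        (mem_ball_zero_iff.mpr (by linarith))
      rw [h3] at h5
      have h8 : (‖t‖ / (3 / 2)) ^ (k * d) ≤ ((2 / 3 : ℝ) ^ k) ^ d := by
        rw [← pow_mul]
        refine pow_le_pow_left₀ (by positivity) ?_ _
        linarith
      have h9 : M * c₁ ^ d ≤ M * (C₁ * (2 / 3 : ℝ) ^ k) ^ d := by
        calc M * c₁ ^ d ≤ M * ‖ψ i t‖ ^ d := mul_le_mul_of_nonneg_left (pow_le_pow_left₀ hc₁.le (hbd i t htc).1 d) hM0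
          _ ≤ M * C₁ ^ d * (‖t‖ / (3 / 2)) ^ (k * d) := h5
          _ ≤ M * C₁ ^ d * ((2 / 3 : ℝ) ^ k) ^ d := mul_le_mul_of_nonneg_left h8 (by positivity)
          _ = M * (C₁ * (2 / 3 : ℝ) ^ k) ^ d := by rw [mul_pow]; ring
      have h10 : c₁ ^ d ≤ (C₁ * (2 / 3 : ℝ) ^ k) ^ d := le_of_mul_le_mul_left h9 hMpos
      have h11 : (C₁ * (2 / 3 : ℝ) ^ k) ^ d < c₁ ^ d := pow_lt_pow_left₀ hk (by positivity) (by omega)
      linarith
    intro x hx
    have h1 : ‖eval ((LE N).symm x) Q‖ ≤ 0 := by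
      rw [← hM1, hM]
      exact hmax hx
    exact norm_le_zero_iff.mp h1
  refine ⟨Q, d, hQh, hQP, fun x hx hux => ?_⟩
  have hsym : (LE N).symm ((LE N) x.rep) = x.rep := ContinuousLinearEquiv.symm_apply_apply _ _
  have hr : (LE N).symm ((LE N) x.rep) ≠ 0 := by rw [hsym]; exact x.rep_nonzero
  have hmk : Projectivization.mk ℂ ((LE N).symm ((LE N) x.rep)) hr = x := by
    conv_rhs => rw [← Projectivization.mk_rep x]
    congr 1
  have hyX : (LE N) x.rep ∈ coneE P := (Pool.Agent.H17EF.mem_coneE hP).2 ⟨hr, by rw [hmk]; exact hx⟩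
  have hyc : uE Λ u ((LE N) x.rep) - c ∈ Λ := by
    rw [Pool.Agent.H17EF.sub_mem_iff, Pool.Agent.H17EF.uE_eq Λ u hr, hmk]
    exact hux
  obtain ⟨y, hy, hxy⟩ := hunit _ hyX hyc
  show eval x.rep Q = 0
  have h1 : ‖eval ((LE N).symm ((LE N) x.rep)) Q‖ = 0 := by
    rw [hxy, hhom, hKQ y hy, norm_zero, mul_zero]
  rw [hsym] at h1
  exact norm_eq_zero.mp h1

end Pool.Agent.H17G
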