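import Pool.Agent.H17G.MainG
import Pool.Agent.H7.Bir.Main

/-!
# G FinalG: the four properties
-/

set_option autoImplicit false

open MvPolynomial

noncomputable section

namespace Pool.Agent.H17G

open Pool.Agent.H17 (PN VanishesAt ZariskiClosedIn HolomorphicInto puncturedDisc)
open Pool.Agent.H62.FC (Homog closureIn entireCurves)
open Pool.Agent.H17LG.Variety (FunField IsLogGeneralType)
open Pool.Agent.H13.SM (conTan)
open Pool.Agent.H14.KB (KobayashiHyperbolicModulo)
open Pool.Agent.H13.OT (OrderTwo)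
open Pool.Agent.H62.EF (SS)
open Pool.Agent.H17EF (projVar GT IsHolomorphicMap sections lat_of_basis coneE uE)

variable {N : ℕ} {P : Ideal (MvPolynomial (Fin (N + 1)) ℂ)} [P.IsPrime] {z : Fin 2 → FunField P}

/-- the finiteness of the sections -/
theorem finite_of_hyp (hP : Homog P) (hz : IsTranscendenceBasis ℂ z)
    (hsm : ∀ y : Fin (N + 1) → ℂ, y ≠ 0 → (∀ Q ∈ P, eval y Q = 0) → Module.finrank ℂ (conTan P y) ≤ 3) (hgt : GT P 2)
    {w : Fin 2 → ℂ} (hw : LinearIndependent ℝ w) {u : PN N → ℂ ⧸ AddSubgroup.closure (Set.range w)}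
    (hu : IsHolomorphicMap (projVar P) (AddSubgroup.closure (Set.range w)) u)
    (hnc : ∀ x ∈ projVar P, IsNCPoint (projVar P) (AddSubgroup.closure (Set.range w)) u x)
    {w' : Fin 2 → ℂ} (hw' : LinearIndependent ℝ w') (hle : ∀ i, w' i ∈ AddSubgroup.closure (Set.range w))
    (hform : HasForms (projVar P) (AddSubgroup.closure (Set.range w)) (AddSubgroup.closure (Set.range w')) u) :
    (SS (coneE P) (AddSubgroup.closure (Set.range w)) (uE (AddSubgroup.closure (Set.range w)) u)).Finite := by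
  have hle' : AddSubgroup.closure (Set.range w') ≤ AddSubgroup.closure (Set.range w) := by
    rw [AddSubgroup.closure_le]
    rintro _ ⟨i, rfl⟩
    exact hle i
  exact coreG_finite hP hz hsm hgt (lat_of_basis hw) (lat_of_basis hw') hle' hu hnc hform

/-- the four properties, and the Kobayashi pseudometric -/
theorem fourG (hP : Homog P) (hz : IsTranscendenceBasis ℂ z)
    (hsm : ∀ y : Fin (N + 1) → ℂ, y ≠ 0 → (∀ Q ∈ P, eval y Q = 0) → Module.finrank ℂ (conTan P y) ≤ 3) (hgt : GT P 2)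
    {w : Fin 2 → ℂ} (hw : LinearIndependent ℝ w) {u : PN N → ℂ ⧸ AddSubgroup.closure (Set.range w)}
    (hu : IsHolomorphicMap (projVar P) (AddSubgroup.closure (Set.range w)) u)
    (hnc : ∀ x ∈ projVar P, IsNCPoint (projVar P) (AddSubgroup.closure (Set.range w)) u x)
    {w' : Fin 2 → ℂ} (hw' : LinearIndependent ℝ w') (hle : ∀ i, w' i ∈ AddSubgroup.closure (Set.range w))
    (hform : HasForms (projVar P) (AddSubgroup.closure (Set.range w)) (AddSubgroup.closure (Set.range w')) u) :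
    Pool.Agent.H7.Bir.GGL P (excG P) ∧
    ∃ (Q : MvPolynomial (Fin (N + 1)) ℂ) (D : ℕ), Q.IsHomogeneous D ∧ (∃ x ∈ projVar P, ¬ VanishesAt Q x) ∧
      (∀ x ∈ excG P, VanishesAt Q x) ∧ KobayashiHyperbolicModulo (projVar P) Q D := by
  obtain ⟨hΞ, hbrody, hpicard, hstr, hkob⟩ := four_of_orderTwo hP hz hsm hgt
    (orderTwo_form hP hz hsm hgt hw hu hnc (finite_of_hyp hP hz hsm hgt hw hu hnc hw' hle hform))
  refine ⟨⟨hΞ.1, hΞ.2, ?_, hpicard, hbrody, hstr⟩, hkob⟩
  intro k _ hk
  have h4 := Pool.Agent.H17EF.two_of_basis ⟨z, hz⟩ hk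
  subst h4
  exact hgt

end Pool.Agent.H17G
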