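import Pool.Agent.H17EF.Four
import Pool.Agent.H62.FC.Special

/-!
# G FourG: the four properties of the Green–Griffiths–Lang conjecture from the degeneracy of entire curves of order two
-/

set_option autoImplicit false

open MvPolynomial

noncomputable section

namespace Pool.Agent.H17G

open Pool.Agent.H17 (PN VanishesAt ZariskiClosedIn HolomorphicInto puncturedDisc)
open Pool.Agent.H62.FC (Homog closureIn entireCurves)
open Pool.Agent.H17LG.Variety (FunField IsLogGeneralType)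
open Pool.Agent.H13.SM (conTan)
open Pool.Agent.H14.KB (KobayashiHyperbolicModulo)
open Pool.Agent.H13.OT (OrderTwo)
open Pool.Agent.H17EF (projVar GT locVar_one onBd_one exists_coord exists_point closed_union exists_form_of_ne)

variable {N : ℕ}

theorem closed_closureIn (X S : Set (PN N)) : ZariskiClosedIn X (closureIn X S) := by
  refine ⟨{Q | (∃ n, Q.IsHomogeneous n) ∧ ∀ y ∈ S, VanishesAt Q y}, fun Q hQ => hQ.1, ?_⟩
  ext x
  constructor
  · rintro ⟨hx, h⟩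
    exact ⟨hx, fun Q ⟨⟨n, hn⟩, hQ⟩ => h n Q hn hQ⟩
  · rintro ⟨hx, h⟩
    exact ⟨hx, fun n Q hn hQ => h Q ⟨⟨n, hn⟩, hQ⟩⟩

theorem closed_form (X : Set (PN N)) {R : MvPolynomial (Fin (N + 1)) ℂ} {n : ℕ} (hR : R.IsHomogeneous n) :
    ZariskiClosedIn X {x | x ∈ X ∧ VanishesAt R x} := by
  refine ⟨{R}, fun Q hQ => ?_, ?_⟩
  · rw [Set.mem_singleton_iff.1 hQ]
    exact ⟨n, hR⟩
  · ext x
    constructor
    · rintro ⟨hx, h⟩
      exact ⟨hx, fun Q hQ => by rw [Set.mem_singleton_iff.1 hQ]; exact h⟩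
    · rintro ⟨hx, h⟩
      exact ⟨hx, h R rfl⟩

section

variable {P : Ideal (MvPolynomial (Fin (N + 1)) ℂ)} [P.IsPrime] {z : Fin 2 → FunField P}

/-- The Zariski closure of the union of the images of the non-constant entire curves. -/
def excG (P : Ideal (MvPolynomial (Fin (N + 1)) ℂ)) : Set (PN N) := closureIn (projVar P) (entireCurves (projVar P))

theorem nonempty_coord (hz : IsTranscendenceBasis ℂ z) : ∃ i, (X i : MvPolynomial (Fin (N + 1)) ℂ) ∉ P := by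
  by_contra hcon
  push Not at hcon
  have h0 : ∀ i, Pool.Agent.H17GT.coordFun P i = 0 := by
    intro i
    unfold Pool.Agent.H17GT.coordFun
    rw [Ideal.Quotient.eq_zero_iff_mem.2 (hcon i), map_zero]
  have hbot : Pool.Agent.H17GT.functionField P = ⊥ := by
    unfold Pool.Agent.H17GT.functionField
    rw [eq_bot_iff, IntermediateField.adjoin_le_iff]
    rintro y ⟨i, j, rfl⟩
    rw [h0 i, zero_div]
    exact zero_mem _
  have h1 : Transcendental ℂ (z 0) := hz.1.transcendental 0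
  apply h1
  have h2 : (show Pool.Agent.H17GT.functionField P from z 0).1 ∈
      (⊥ : IntermediateField ℂ (FractionRing (MvPolynomial (Fin (N + 1)) ℂ ⧸ P))) := by
    rw [← hbot]
    exact (show Pool.Agent.H17GT.functionField P from z 0).2
  obtain ⟨c, hc⟩ := IntermediateField.mem_bot.1 h2
  have h3 : z 0 = algebraMap ℂ (FunField P) c := Subtype.ext hc.symm
  rw [h3]
  exact isAlgebraic_algebraMap c

theorem four_of_orderTwo (hP : Homog P) (hz : IsTranscendenceBasis ℂ z)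
    (hsm : ∀ y : Fin (N + 1) → ℂ, y ≠ 0 → (∀ Q ∈ P, eval y Q = 0) → Module.finrank ℂ (conTan P y) ≤ 3) (hgt : GT P 2)
    (hbr : ∃ (R : MvPolynomial (Fin (N + 1)) ℂ) (n : ℕ), R.IsHomogeneous n ∧ R ∉ P ∧ ∀ f : ℂ → PN N, HolomorphicInto f Set.univ →
      OrderTwo f → (∀ z, f z ∈ projVar P) → (∃ z w, f z ≠ f w) → ∀ z, VanishesAt R (f z)) :
    (ZariskiClosedIn (projVar P) (excG P) ∧ excG P ≠ projVar P) ∧
    (∀ f : ℂ → PN N, HolomorphicInto f Set.univ → (∀ z, f z ∈ projVar P) → (∃ z w, f z ≠ f w) → ∀ z, f z ∈ excG P) ∧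
    (∀ f : ℂ → PN N, HolomorphicInto f puncturedDisc → (∀ z ∈ puncturedDisc, f z ∈ projVar P) → (∃ z ∈ puncturedDisc, f z ∉ excG P) →
      ∃ g : ℂ → PN N, HolomorphicInto g (Metric.ball 0 1) ∧ ∀ z ∈ puncturedDisc, g z = f z) ∧
    (∀ (Q : Ideal (MvPolynomial (Fin (N + 1)) ℂ)) [Q.IsPrime], Homog Q → P ≤ Q → ¬ projVar Q ⊆ excG P →
      ∀ k, 1 ≤ k → (∃ z : Fin k → FunField Q, IsTranscendenceBasis ℂ z) → GT Q k) ∧
    ∃ (Q : MvPolynomial (Fin (N + 1)) ℂ) (D : ℕ), Q.IsHomogeneous D ∧ (∃ x ∈ projVar P, ¬ VanishesAt Q x) ∧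
      (∀ x ∈ excG P, VanishesAt Q x) ∧ KobayashiHyperbolicModulo (projVar P) Q D := by
  obtain ⟨R, n, hR, hRP, hbr⟩ := hbr
  have hX := nonempty_coord hz
  have hlv := locVar_one P
  have hproper : Pool.Agent.H62.SA.IsProperMap P (fun _ : Fin 1 => (1 : MvPolynomial (Fin (N + 1)) ℂ))
      (fun _ (_ : Fin (0 + 1)) => 1) (fun _ => 0) := by
    refine ⟨fun _ _ => isHomogeneous_one _ _, fun _ => rfl, fun _ _ _ => ?_, fun x _ => ⟨0, 0, ?_⟩⟩
    · rw [mul_one, sub_self]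
      exact P.zero_mem
    · unfold VanishesAt
      simp
  have hgt' : IsLogGeneralType (K := FunField P) (k := 2)
      (Pool.Agent.H62.SA.OnBd P (fun _ : Fin 1 => (1 : MvPolynomial (Fin (N + 1)) ℂ))) := by
    rw [onBd_one]
    exact hgt
  -- a first exceptional set
  set Ξ₀ : Set (PN N) := {x | x ∈ projVar P ∧ VanishesAt R x} with hΞ₀
  have hcl₀ : ZariskiClosedIn (projVar P) Ξ₀ := closed_form _ hR
  obtain ⟨x₀, hx₀, hRx₀⟩ := exists_point hP hX hRP hR
  have hne₀ : Ξ₀ ≠ projVar P := by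
    intro h
    rw [← h] at hx₀
    exact hRx₀ hx₀.2
  have hmain₀ := Pool.Agent.H62.SA.proper_main (G := fun _ : Fin 1 => (1 : MvPolynomial (Fin (N + 1)) ℂ)) hP hz hsm hproper hgt'
    (Ξ := Ξ₀) (by rw [hlv]; exact hcl₀) (by rw [hlv]; exact hne₀) (by
      rw [hlv]
      exact fun f hf hfo hfX hfn z => ⟨hfX z, hbr f hf hfo hfX hfn z⟩)
  rw [hlv] at hmain₀
  obtain ⟨hbrody₀, -, -⟩ := hmain₀
  -- the closure of the union of all entire curves
  have hcl : ZariskiClosedIn (projVar P) (excG P) := closed_closureIn _ _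
  have hne : excG P ≠ projVar P := by
    intro h
    rw [← h] at hx₀
    apply hRx₀
    refine hx₀.2 n R hR ?_
    rintro _ ⟨f, hf, hfX, hfn, z, rfl⟩
    exact (hbrody₀ f hf hfX hfn z).2
  have hbr' : ∀ f : ℂ → PN N, HolomorphicInto f Set.univ → (∀ z, f z ∈ projVar P) → (∃ z w, f z ≠ f w) → ∀ z, f z ∈ excG P :=
    fun f hf hfX hfn z => ⟨hfX z, fun k Q _ hQ => hQ _ ⟨f, hf, hfX, hfn, z, rfl⟩⟩
  have hmain := Pool.Agent.H62.SA.proper_main (G := fun _ : Fin 1 => (1 : MvPolynomial (Fin (N + 1)) ℂ)) hP hz hsm hproper hgt'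
    (Ξ := excG P) (by rw [hlv]; exact hcl) (by rw [hlv]; exact hne) (by
      rw [hlv]
      exact fun f hf _ hfX hfn z => hbr' f hf hfX hfn z)
  rw [hlv] at hmain
  obtain ⟨hbrody, hpicard, Q, D, hQ, hQx, hQΞ, hkob⟩ := hmain
  refine ⟨⟨hcl, hne⟩, hbrody, hpicard, ?_, Q, D, hQ, hQx, hQΞ, hkob⟩
  intro Q _ hQ hPQ hsub k hk hz'
  have h1 := Pool.Agent.H13.CV.strongly_of_brodyL P hP ⟨z, hz⟩ (G := fun _ : Fin 1 => (1 : MvPolynomial (Fin (N + 1)) ℂ))
    (fun _ => ⟨0, isHomogeneous_one _ _⟩) (Ξ := excG P) (by rw [hlv]; exact hcl) hgt' (by rw [hlv]; exact hbrody) Q hQ hPQ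
    (by rw [locVar_one]; exact hsub) k hk hz'
  rw [onBd_one] at h1
  exact h1

end

end Pool.Agent.H17G
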