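import Pool.Agent.H17G.CoreG
import Pool.Agent.H17G.BoundP
import Pool.Agent.H17G.FibForm
import Pool.Agent.H17G.FourG

/-!
# G MainG: surfaces of general type with a map to an elliptic curve whose fibres have normal crossings
-/

set_option autoImplicit false

open Topology Filter MvPolynomial Metric

noncomputable section

namespace Pool.Agent.H17G

open Pool.Agent.H17 (PN VanishesAt HolomorphicInto ZariskiClosedIn puncturedDisc)
open Pool.Agent.H62.FC (Homog)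
open Pool.Agent.H62.EF (pr Lat Sec SS)
open Pool.Agent.H17BP (Surface)
open Pool.Agent.H17LG.Variety (FunField IsLogGeneralType)
open Pool.Agent.H13.SM (conTan cone)
open Pool.Agent.H36.BP (EN fs isCone_transport OrdTwo)
open Pool.Agent.H13.OT (OrderTwo)
open Pool.Agent.H17EF (projVar IsHolomorphicMap coneE uE LE GT sections exists_sec prP mk_symm prP_injective ordTwo_symm ordTwo_of_fs
  sections_periodic exists_affine lat_of_basis exists_prod mk_mem_projVar uE_eq sub_mem_iff IsPeriod exists_form_of_periodic eval_smul_form)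

variable {N : ℕ} {P : Ideal (MvPolynomial (Fin (N + 1)) ℂ)}

theorem sections_finite_of [P.IsPrime] {Λ : AddSubgroup ℂ} {u : PN N → ℂ ⧸ Λ} (hP : Homog P) (hfin : (SS (coneE P) Λ (uE Λ u)).Finite) :
    (sections (projVar P) Λ u).Finite := by
  refine Set.Finite.of_finite_image (f := fun (f : ℂ → PN N) z => prP (f z)) (hfin.subset ?_) ?_
  · rintro _ ⟨f, hf, rfl⟩
    obtain ⟨F, hF, hFf⟩ := exists_sec hP hf
    refine ⟨F, hF, ?_⟩
    funext z
    obtain ⟨h, h'⟩ := hFf z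
    show prP (f z) = _
    rw [h', mk_symm h]
  · intro f _ g _ h
    funext z
    exact prP_injective (congrFun h z)

section

variable [P.IsPrime] {z : Fin 2 → FunField P}

theorem sections_orderTwo_of (hP : Homog P) (hz : IsTranscendenceBasis ℂ z)
    (hsm : ∀ y : Fin (N + 1) → ℂ, y ≠ 0 → (∀ Q ∈ P, eval y Q = 0) → Module.finrank ℂ (conTan P y) ≤ 3)
    {Λ : AddSubgroup ℂ} (hΛ : Lat Λ) {u : PN N → ℂ ⧸ Λ} (hfin : (SS (coneE P) Λ (uE Λ u)).Finite) {f : ℂ → PN N}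
    (hf : f ∈ sections (projVar P) Λ u) :
    OrderTwo f ∧ ∃ F : ℂ → Fin (N + 1) → ℂ, Differentiable ℂ F ∧ OrdTwo F ∧ ∀ z, ∃ h : F z ≠ 0, f z = Projectivization.mk ℂ (F z) h := by
  have hS : Surface (cone P) := Pool.Agent.H13.SM.surface_cone hP hz fun y hy => hsm y hy.1 hy.2
  obtain ⟨F, hF, hFf⟩ := exists_sec hP hf
  obtain ⟨L, -, hL⟩ := bound_of_finite (isCone_transport (LE N) hS) hΛ hfin
  have h0 : ∀ z, F z ≠ 0 := by
    intro z h
    obtain ⟨h1, -⟩ := hFf z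
    rw [h, map_zero] at h1
    exact h1 rfl
  have h1 := ordTwo_symm (ordTwo_of_fs hF.1 h0 (hL F hF))
  have h2 : Differentiable ℂ fun z => (LE N).symm (F z) := (LE N).symm.differentiable.comp hF.1
  have h3 : ∀ z, (LE N).symm (F z) ≠ 0 := fun z => (hFf z).1
  refine ⟨?_, fun z => (LE N).symm (F z), h2, h1, hFf⟩
  have h4 : ∀ z, Pool.Agent.H17BP.HolP (fun z => (LE N).symm (F z)) z := by
    intro z
    exact ⟨fun z => (LE N).symm (F z), h2.analyticAt z, h3 z, Eventually.of_forall fun w => ⟨1, one_ne_zero, by simp⟩⟩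
  have h5 := Pool.Agent.H13.OT.OrdTwo.orderTwo h3 h4 h1
  have h6 : f = fun z => Projectivization.mk ℂ ((LE N).symm (F z)) (h3 z) := by
    funext z
    exact (hFf z).2
  rw [h6]
  exact h5

/-- the sections are algebraically degenerate -/
theorem sections_form_of (hP : Homog P) (hz : IsTranscendenceBasis ℂ z)
    (hsm : ∀ y : Fin (N + 1) → ℂ, y ≠ 0 → (∀ Q ∈ P, eval y Q = 0) → Module.finrank ℂ (conTan P y) ≤ 3)
    {w : Fin 2 → ℂ} (hw : LinearIndependent ℝ w) {u : PN N → ℂ ⧸ AddSubgroup.closure (Set.range w)}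
    (hfin : (SS (coneE P) (AddSubgroup.closure (Set.range w)) (uE (AddSubgroup.closure (Set.range w)) u)).Finite) {f : ℂ → PN N}
    (hf : f ∈ sections (projVar P) (AddSubgroup.closure (Set.range w)) u) :
    ∃ (Q : MvPolynomial (Fin (N + 1)) ℂ) (d : ℕ), Q.IsHomogeneous d ∧ Q ∉ P ∧ ∀ z, VanishesAt Q (f z) := by
  have hΛ := lat_of_basis hw
  obtain ⟨-, F, hF, hFo, hFf⟩ := sections_orderTwo_of hP hz hsm hΛ hfin hf
  obtain ⟨m, hm, hper⟩ := sections_periodic hP hfin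
  have hmem : ∀ i, w i ∈ AddSubgroup.closure (Set.range w) := fun i => AddSubgroup.subset_closure ⟨i, rfl⟩
  have hperiod : ∀ i, IsPeriod F ((m : ℂ) * w i) := by
    intro i z
    have h1 := hper f hf (w i) (hmem i) z
    obtain ⟨h2, h2'⟩ := hFf (z + (m : ℂ) * w i)
    obtain ⟨h3, h3'⟩ := hFf z
    rw [h2', h3', Projectivization.mk_eq_mk_iff'] at h1
    obtain ⟨a, ha⟩ := h1
    refine ⟨a, ?_, ha.symm⟩
    rintro rfl
    rw [zero_smul] at ha
    exact h2 ha.symm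
  have hm0 : (m : ℂ) ≠ 0 := by exact_mod_cast (by omega : m ≠ 0)
  have hm0r : (m : ℝ) ≠ 0 := by exact_mod_cast (by omega : m ≠ 0)
  have hind : LinearIndependent ℝ ![(m : ℂ) * w 0, (m : ℂ) * w 1] := by
    rw [LinearIndependent.pair_iff]
    intro a b hab
    have hww : LinearIndependent ℝ ![w 0, w 1] := by
      have h2 : ![w 0, w 1] = w := by
        funext i
        fin_cases i <;> rfl
      rw [h2]
      exact hw
    have h1 := LinearIndependent.pair_iff.1 hww (a * m) (b * m) (by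
        simp only [Complex.real_smul] at hab ⊢
        push_cast
        linear_combination hab)
    exact ⟨(mul_eq_zero.1 h1.1).resolve_right hm0r, (mul_eq_zero.1 h1.2).resolve_right hm0r⟩
  obtain ⟨Q, d, hQ, hQP, hQF⟩ := exists_form_of_periodic hz hF (fun z => (hFf z).1) hFo (fun z Q hQ => by
    have h1 := hf.2.1 z
    obtain ⟨h2, h2'⟩ := hFf z
    rw [h2', mk_mem_projVar hP h2] at h1
    exact h1.2 Q hQ) hind (hperiod 0) (hperiod 1)
  refine ⟨Q, d, hQ, hQP, fun z => ?_⟩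
  obtain ⟨h2, h2'⟩ := hFf z
  rw [h2']
  obtain ⟨a, ha, hrep⟩ := Pool.Agent.H36.BP.rep_mk h2
  unfold VanishesAt
  rw [hrep, eval_smul_form hQ, hQF z, mul_zero]

/-- the entire curves in the fibres lie in a hypersurface -/
theorem vertical_form (hP : Homog P) (hz : IsTranscendenceBasis ℂ z)
    (hsm : ∀ y : Fin (N + 1) → ℂ, y ≠ 0 → (∀ Q ∈ P, eval y Q = 0) → Module.finrank ℂ (conTan P y) ≤ 3) (hgt : GT P 2)
    {Λ : AddSubgroup ℂ} (hΛ : Lat Λ) {u : PN N → ℂ ⧸ Λ} (hu : IsHolomorphicMap (projVar P) Λ u)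
    (hnc : ∀ x ∈ projVar P, IsNCPoint (projVar P) Λ u x) :
    ∃ (R : MvPolynomial (Fin (N + 1)) ℂ) (n : ℕ), R.IsHomogeneous n ∧ R ∉ P ∧ ∀ f : ℂ → PN N, HolomorphicInto f Set.univ →
      (∀ z, f z ∈ projVar P) → (∀ z w, u (f z) = u (f w)) → (∃ z w, f z ≠ f w) → ∀ z, VanishesAt R (f z) := by
  have hS : Surface (cone P) := Pool.Agent.H13.SM.surface_cone hP hz fun y hy => hsm y hy.1 hy.2
  obtain ⟨B, hinv, ⟨δ, hδ, hsep⟩, hfib⟩ := exists_bad hP hz hsm hgt hΛ hu hnc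
  have hfin := image_finite hΛ hinv hδ hsep
  obtain ⟨R, n, hR, hRP, hRx⟩ := exists_prod (P := P) hfin (A := fun β => {x : PN N | x ∈ projVar P ∧ u x = β}) (by
    rintro _ ⟨b, hb, rfl⟩
    obtain ⟨Q, d, hQ, hQP, hQx⟩ := fibre_form hP hz hS hΛ hu hnc b
    exact ⟨Q, d, hQ, hQP, fun x hx => hQx x hx.1 hx.2⟩)
  refine ⟨R, n, hR, hRP, fun f hf hfX hfu hfn z => ?_⟩
  obtain ⟨F, hF, hFf⟩ := Pool.Agent.H17EF.exists_lift hf
  have h0 : ∀ z, (LE N).symm (F z) ≠ 0 := fun z => (hFf z).1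
  have hFX : ∀ z, F z ∈ coneE P := fun z => (mk_mem_projVar hP (h0 z)).1 ((hFf z).2 ▸ hfX z)
  have hval : ∀ z, ((uE Λ u (F z) : ℂ) : ℂ ⧸ Λ) = u (f z) := fun z => by rw [uE_eq Λ u (h0 z), ← (hFf z).2]
  obtain ⟨b, hb, hb'⟩ := hfib F hF hFX (fun z w => by
    rw [sub_mem_iff, hval, hval]
    exact hfu z w) (by
    obtain ⟨z, w, hzw⟩ := hfn
    refine ⟨z, w, fun c hc => hzw ?_⟩
    rw [(hFf z).2, (hFf w).2, Projectivization.mk_eq_mk_iff']
    exact ⟨c, by rw [hc, map_smul]⟩)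
  have hub : u (f 0) = (b : ℂ ⧸ Λ) := by
    rw [← hval]
    exact sub_mem_iff.1 hb'
  exact hRx _ (Set.mem_biUnion ⟨b, hb, rfl⟩ ⟨hfX z, (hfu z 0).trans hub⟩)

/-- the entire curves of order two are degenerate -/
theorem orderTwo_form (hP : Homog P) (hz : IsTranscendenceBasis ℂ z)
    (hsm : ∀ y : Fin (N + 1) → ℂ, y ≠ 0 → (∀ Q ∈ P, eval y Q = 0) → Module.finrank ℂ (conTan P y) ≤ 3) (hgt : GT P 2)
    {w : Fin 2 → ℂ} (hw : LinearIndependent ℝ w) {u : PN N → ℂ ⧸ AddSubgroup.closure (Set.range w)}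
    (hu : IsHolomorphicMap (projVar P) (AddSubgroup.closure (Set.range w)) u)
    (hnc : ∀ x ∈ projVar P, IsNCPoint (projVar P) (AddSubgroup.closure (Set.range w)) u x)
    (hfin : (SS (coneE P) (AddSubgroup.closure (Set.range w)) (uE (AddSubgroup.closure (Set.range w)) u)).Finite) :
    ∃ (R : MvPolynomial (Fin (N + 1)) ℂ) (n : ℕ), R.IsHomogeneous n ∧ R ∉ P ∧ ∀ f : ℂ → PN N, HolomorphicInto f Set.univ →
      OrderTwo f → (∀ z, f z ∈ projVar P) → (∃ z w, f z ≠ f w) → ∀ z, VanishesAt R (f z) := by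
  have hΛ := lat_of_basis hw
  obtain ⟨R, n, hR, hRP, hRv⟩ := vertical_form hP hz hsm hgt hΛ hu hnc
  obtain ⟨R', n', hR', hRP', hRs⟩ := exists_prod (P := P) (sections_finite_of hP hfin) (A := fun f => Set.range f) (by
    intro f hf
    obtain ⟨Q, d, hQ, hQP, hQf⟩ := sections_form_of hP hz hsm hw hfin hf
    refine ⟨Q, d, hQ, hQP, ?_⟩
    rintro _ ⟨z, rfl⟩
    exact hQf z)
  refine ⟨R * R', n + n', hR.mul hR', fun h => ((inferInstance : P.IsPrime).mem_or_mem h).elim hRP hRP', fun g hg hgo hgX hgn z => ?_⟩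
  have hmul : ∀ x : PN N, VanishesAt R x ∨ VanishesAt R' x → VanishesAt (R * R') x := by
    intro x h
    unfold VanishesAt at h ⊢
    rw [map_mul]
    rcases h with h | h
    · rw [h, zero_mul]
    · rw [h, mul_zero]
  rcases exists_affine hP hz hsm hΛ hu hg hgo hgX with h | ⟨f, hf, a, b, ha, hgf⟩
  · exact hmul _ (Or.inl (hRv g hg hgX h hgn z))
  · refine hmul _ (Or.inr (hRs _ (Set.mem_biUnion hf ?_)))
    rw [hgf z]
    exact ⟨_, rfl⟩

end

end Pool.Agent.H17G
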